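import Mathlib

set_option autoImplicit false

open Filter Topology

namespace Pool.Agent.MP_7da968

/-- A fundamental biorthogonal sequence with controlled norms. -/
structure Bio (X : Type*) [NormedAddCommGroup X] [NormedSpace ℂ X] where
  e : ℕ → X
  f : ℕ → (X →L[ℂ] ℂ)
  bi : ∀ i j, f i (e j) = if i = j then 1 else 0
  ne : ∀ i, ‖e i‖ ≤ 1
  nf : ∀ i, ‖f i‖ ≤ 2 ^ i
  dense : Dense ((Submodule.span ℂ (Set.range e) : Submodule ℂ X) : Set X)

variable {X : Type*} [NormedAddCommGroup X] [NormedSpace ℂ X]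

/-- The finite stage. -/
def Good (d : ℕ → X) (n : ℕ) (p : (ℕ → X) × (ℕ → (X →L[ℂ] ℂ))) : Prop :=
  (∀ i < n, ∀ j < n, p.2 i (p.1 j) = if i = j then 1 else 0) ∧ (∀ i < n, ‖p.1 i‖ ≤ 1) ∧
    (∀ i < n, ‖p.2 i‖ ≤ 2 ^ i) ∧ ∀ i < n, d i ∈ Submodule.span ℂ (p.1 '' Set.Iio n)

theorem good_step (hX : ¬ FiniteDimensional ℂ X) (d : ℕ → X) (n : ℕ)
    (p : (ℕ → X) × (ℕ → (X →L[ℂ] ℂ))) (hp : Good d n p) :
    ∃ v : X, ∃ g : X →L[ℂ] ℂ, Good d (n + 1) (Function.update p.1 n v, Function.update p.2 n g) := by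
  classical
  obtain ⟨hbi, hne, hnf, hd⟩ := hp
  set F : Submodule ℂ X := Submodule.span ℂ (p.1 '' Set.Iio n) with hF
  have hFfin : FiniteDimensional ℂ F := by
    refine FiniteDimensional.span_of_finite ℂ ?_
    exact (Set.finite_Iio n).image _
  have hmem : ∀ i < n, p.1 i ∈ F := fun i hi => Submodule.subset_span ⟨i, hi, rfl⟩
  -- the vector `z`
  obtain ⟨z, hz, hdz⟩ : ∃ z : X, z ∉ F ∧ (d n ∈ F ∨ z = d n) := by
    by_cases h : d n ∈ F
    · have hne' : F ≠ ⊤ := by
        intro h'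
        apply hX
        rw [h'] at hFfin
        exact Module.Finite.equiv (Submodule.topEquiv (R := ℂ) (M := X))
      obtain ⟨z, hz⟩ := SetLike.exists_not_mem_of_ne_top F hne' rfl
      exact ⟨z, hz, Or.inl h⟩
    · exact ⟨d n, h, Or.inr rfl⟩
  set P : X →L[ℂ] X := ∑ j ∈ Finset.range n, (p.2 j).smulRight (p.1 j) with hP
  have hPapp : ∀ x, P x = ∑ j ∈ Finset.range n, (p.2 j x) • p.1 j := by
    intro x
    simp [hP]
  have hPF : ∀ x, P x ∈ F := by
    intro x
    rw [hPapp]
    exact F.sum_mem fun j hj => F.smul_mem _ (hmem j (Finset.mem_range.1 hj))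
  have hPe : ∀ i < n, P (p.1 i) = p.1 i := by
    intro i hi
    rw [hPapp]
    rw [Finset.sum_congr rfl (fun j hj => by rw [hbi j (Finset.mem_range.1 hj) i hi])]
    simp [hi]
  have hfP : ∀ i < n, ∀ x, p.2 i (P x) = p.2 i x := by
    intro i hi x
    rw [hPapp, map_sum]
    rw [Finset.sum_congr rfl (fun j hj => by
      rw [map_smul, hbi i hi j (Finset.mem_range.1 hj), smul_eq_mul])]
    simp [hi]
  set q : X →L[ℂ] X := ContinuousLinearMap.id ℂ X - P with hq
  have hqn : ‖q‖ ≤ 2 ^ n := by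
    have h1 : ‖P‖ ≤ ∑ j ∈ Finset.range n, (2 : ℝ) ^ j := by
      refine (norm_sum_le _ _).trans (Finset.sum_le_sum fun j hj => ?_)
      rw [ContinuousLinearMap.norm_smulRight_apply]
      have := hnf j (Finset.mem_range.1 hj)
      have := hne j (Finset.mem_range.1 hj)
      calc ‖p.2 j‖ * ‖p.1 j‖ ≤ 2 ^ j * 1 := mul_le_mul (hnf j (Finset.mem_range.1 hj))
            (hne j (Finset.mem_range.1 hj)) (norm_nonneg _) (by positivity)
        _ = 2 ^ j := mul_one _
    have h2 : ∑ j ∈ Finset.range n, (2 : ℝ) ^ j = 2 ^ n - 1 := by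
      rw [geom_sum_eq (by norm_num)]; norm_num
    have h3 : ‖ContinuousLinearMap.id ℂ X‖ ≤ 1 := ContinuousLinearMap.norm_id_le
    calc ‖q‖ ≤ ‖ContinuousLinearMap.id ℂ X‖ + ‖P‖ := norm_sub_le _ _
      _ ≤ 1 + (2 ^ n - 1) := by rw [h2] at h1; exact add_le_add h3 h1
      _ = 2 ^ n := by ring
  set v0 : X := z - P z with hv0
  have hv0ne : v0 ≠ 0 := by
    intro h
    apply hz
    rw [sub_eq_zero.1 h]
    exact hPF z
  have hv0n : ‖v0‖ ≠ 0 := norm_ne_zero_iff.2 hv0ne
  set v : X := ((‖v0‖ : ℂ)⁻¹) • v0 with hv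
  have hvn : ‖v‖ = 1 := by
    rw [hv, norm_smul, norm_inv, Complex.norm_real, norm_norm, inv_mul_cancel₀ hv0n]
  have hfv : ∀ i < n, p.2 i v = 0 := by
    intro i hi
    rw [hv, map_smul, hv0, map_sub, hfP i hi, sub_self, smul_zero]
  have hPv : P v = 0 := by
    rw [hPapp]
    exact Finset.sum_eq_zero fun j hj => by rw [hfv j (Finset.mem_range.1 hj), zero_smul]
  obtain ⟨φ, hφ1, hφ2⟩ := exists_dual_vector ℂ v (norm_ne_zero_iff.1 (by rw [hvn]; norm_num))
  set g : X →L[ℂ] ℂ := φ.comp q with hg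
  have hgv : g v = 1 := by
    rw [hg, ContinuousLinearMap.comp_apply, hq, sub_apply, hPv, sub_zero]
    change φ v = 1
    rw [hφ2, hvn]
    simp
  have hge : ∀ i < n, g (p.1 i) = 0 := by
    intro i hi
    rw [hg, ContinuousLinearMap.comp_apply, hq, sub_apply, hPe i hi]
    simp
  have hgn : ‖g‖ ≤ 2 ^ n := by
    refine (ContinuousLinearMap.opNorm_comp_le _ _).trans ?_
    rw [hφ1, one_mul]
    exact hqn
  have hspan : ∀ x ∈ F, x ∈ Submodule.span ℂ ((Function.update p.1 n v) '' Set.Iio (n + 1)) := by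
    intro x hx
    refine Submodule.span_mono ?_ hx
    rintro _ ⟨i, hi, rfl⟩
    refine ⟨i, Set.mem_Iio.2 (lt_trans (Set.mem_Iio.1 hi) (Nat.lt_succ_self n)), ?_⟩
    rw [Function.update_of_ne (Set.mem_Iio.1 hi).ne]
  refine ⟨v, g, ?_, ?_, ?_, ?_⟩
  · intro i hi j hj
    dsimp only
    rcases Nat.lt_succ_iff_lt_or_eq.1 hi with hi | rfl
    · rcases Nat.lt_succ_iff_lt_or_eq.1 hj with hj | rfl
      · rw [Function.update_of_ne hi.ne, Function.update_of_ne hj.ne]
        exact hbi i hi j hj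
      · rw [Function.update_of_ne hi.ne, Function.update_self, if_neg hi.ne]
        exact hfv i hi
    · rcases Nat.lt_succ_iff_lt_or_eq.1 hj with hj | rfl
      · rw [Function.update_self, Function.update_of_ne hj.ne, if_neg hj.ne']
        exact hge j hj
      · rw [Function.update_self, Function.update_self, if_pos rfl]
        exact hgv
  · intro i hi
    dsimp only
    rcases Nat.lt_succ_iff_lt_or_eq.1 hi with hi | rfl
    · rw [Function.update_of_ne hi.ne]; exact hne i hi
    · rw [Function.update_self]; exact hvn.le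
  · intro i hi
    dsimp only
    rcases Nat.lt_succ_iff_lt_or_eq.1 hi with hi | rfl
    · rw [Function.update_of_ne hi.ne]; exact hnf i hi
    · rw [Function.update_self]; exact hgn
  · intro i hi
    dsimp only
    rcases Nat.lt_succ_iff_lt_or_eq.1 hi with hi | rfl
    · exact hspan _ (hd i hi)
    · rcases hdz with h | h
      · exact hspan _ h
      · rw [← h]
        have h1 : z = (‖v0‖ : ℂ) • v + P z := by
          rw [hv, smul_smul, mul_inv_cancel₀ (by exact_mod_cast hv0n), one_smul, hv0]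
          abel
        rw [h1]
        refine Submodule.add_mem _ (Submodule.smul_mem _ _ ?_) (hspan _ (hPF z))
        refine Submodule.subset_span ⟨i, Set.mem_Iio.2 (Nat.lt_succ_self i), ?_⟩
        rw [Function.update_self]

theorem exists_bio [TopologicalSpace.SeparableSpace X] (hX : ¬ FiniteDimensional ℂ X) :
    Nonempty (Bio X) := by
  classical
  set d : ℕ → X := TopologicalSpace.denseSeq X with hd
  have h0 : Good d 0 ((fun _ => 0), (fun _ => 0)) := by
    refine ⟨?_, ?_, ?_, ?_⟩ <;> intro i hi <;> exact absurd hi (Nat.not_lt_zero i)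
  choose! vv gg hstep using fun n p hp => good_step hX d n p hp
  let S : (n : ℕ) → {p : (ℕ → X) × (ℕ → (X →L[ℂ] ℂ)) // Good d n p} := fun n =>
    Nat.rec ⟨_, h0⟩ (fun n s => ⟨_, hstep n s.1 s.2⟩) n
  have hS : ∀ n, (S (n + 1)).1 =
      (Function.update (S n).1.1 n (vv n (S n).1), Function.update (S n).1.2 n (gg n (S n).1)) :=
    fun n => rfl
  have hstab1 : ∀ n m, n + 1 ≤ m → (S m).1.1 n = (S (n + 1)).1.1 n := by
    intro n m hm
    induction m, hm using Nat.le_induction with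
    | base => rfl
    | succ m hm ih =>
      rw [hS m]
      dsimp only
      rw [Function.update_of_ne (by omega)]
      exact ih
  have hstab2 : ∀ n m, n + 1 ≤ m → (S m).1.2 n = (S (n + 1)).1.2 n := by
    intro n m hm
    induction m, hm using Nat.le_induction with
    | base => rfl
    | succ m hm ih =>
      rw [hS m]
      dsimp only
      rw [Function.update_of_ne (by omega)]
      exact ih
  refine ⟨⟨fun n => (S (n + 1)).1.1 n, fun n => (S (n + 1)).1.2 n, ?_, ?_, ?_, ?_⟩⟩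
  · intro i j
    have h := (S (max i j + 1)).2.1 i (by omega) j (by omega)
    rw [hstab1 j _ (by omega), hstab2 i _ (by omega)] at h
    exact h
  · intro i
    exact (S (i + 1)).2.2.1 i (Nat.lt_succ_self i)
  · intro i
    exact (S (i + 1)).2.2.2.1 i (Nat.lt_succ_self i)
  · have hdense : DenseRange d := TopologicalSpace.denseRange_denseSeq X
    refine hdense.mono ?_
    rintro _ ⟨i, rfl⟩
    have h := (S (i + 1)).2.2.2.2 i (Nat.lt_succ_self i)
    refine Submodule.span_mono ?_ h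
    rintro _ ⟨j, hj, rfl⟩
    exact ⟨j, (hstab1 j (i + 1) (Nat.succ_le_of_lt (Set.mem_Iio.1 hj))).symm⟩

end Pool.Agent.MP_7da968
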