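import Mathlib
import Pool.Agent.Lib.MP_7da968_an.Bio

set_option autoImplicit false

open Filter Topology Polynomial Finset

namespace Pool.Agent.MP_7da968

variable {X : Type*} [NormedAddCommGroup X] [NormedSpace ℂ X]

theorem aeval_comm (K : X →L[ℂ] X) (p q : ℂ[X]) (x : X) :
    (aeval K p) ((aeval K q) x) = (aeval K q) ((aeval K p) x) := by
  have h : (aeval K p) * (aeval K q) = (aeval K q) * (aeval K p) := by
    rw [← map_mul, ← map_mul, mul_comm]
  exact congrArg (fun A : X →L[ℂ] X => A x) h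

theorem aeval_mul_apply (K : X →L[ℂ] X) (p q : ℂ[X]) (x : X) :
    (aeval K (p * q)) x = (aeval K p) ((aeval K q) x) := by
  rw [map_mul]; rfl

theorem aeval_K_comm (K : X →L[ℂ] X) (p : ℂ[X]) (x : X) :
    (aeval K p) (K x) = K ((aeval K p) x) := by
  have := aeval_comm K p Polynomial.X x
  rw [aeval_X] at this
  exact this

/-- The value of `p(K)` at `x` as a sum. -/
theorem aeval_apply_sum (K : X →L[ℂ] X) (p : ℂ[X]) (x : X) (N : ℕ) (hN : p.natDegree < N) :
    (aeval K p) x = ∑ k ∈ range N, p.coeff k • (K ^ k) x := by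
  rw [aeval_eq_sum_range' hN]
  simp

/-- Operators which agree on the orbit of `x` have the same polynomial values. -/
theorem aeval_congr {K K' : X →L[ℂ] X} {p : ℂ[X]} {x : X} {N : ℕ} (hN : p.natDegree < N)
    (h : ∀ k < N, (K' ^ k) x = (K ^ k) x) : (aeval K' p) x = (aeval K p) x := by
  rw [aeval_apply_sum K p x N hN, aeval_apply_sum K' p x N hN]
  exact Finset.sum_congr rfl fun k hk => by rw [h k (Finset.mem_range.1 hk)]

/-- The partial sum operators. -/
noncomputable def Bio.pr (b : Bio X) (D : ℕ) : X →L[ℂ] X :=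
  ∑ j ∈ range D, (b.f j).smulRight (b.e j)

theorem Bio.pr_apply (b : Bio X) (D : ℕ) (x : X) :
    b.pr D x = ∑ j ∈ range D, b.f j x • b.e j := by
  unfold Bio.pr
  simp

theorem Bio.f_pr (b : Bio X) {D i : ℕ} (hi : i < D) (x : X) : b.f i (b.pr D x) = b.f i x := by
  rw [Bio.pr_apply, map_sum]
  rw [Finset.sum_congr rfl (fun j _ => by rw [map_smul, b.bi i j, smul_eq_mul])]
  simp [hi]

theorem Bio.pr_e (b : Bio X) {D i : ℕ} (hi : i < D) : b.pr D (b.e i) = b.e i := by
  rw [Bio.pr_apply]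
  rw [Finset.sum_congr rfl (fun j _ => by rw [b.bi j i])]
  simp [hi]

theorem Bio.pr_e_of_le (b : Bio X) {D i : ℕ} (hi : D ≤ i) : b.pr D (b.e i) = 0 := by
  rw [Bio.pr_apply]
  refine Finset.sum_eq_zero fun j hj => ?_
  have := Finset.mem_range.1 hj
  rw [b.bi j i, if_neg (by omega), zero_smul]

theorem Bio.f_of_pr (b : Bio X) {D i : ℕ} (hi : D ≤ i) {x : X} (hx : b.pr D x = x) :
    b.f i x = 0 := by
  rw [← hx, Bio.pr_apply, map_sum]
  refine Finset.sum_eq_zero fun j hj => ?_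
  have := Finset.mem_range.1 hj
  rw [map_smul, b.bi i j, if_neg (by omega), smul_zero]

theorem Bio.pr_pr_le (b : Bio X) {D D' : ℕ} (h : D ≤ D') (x : X) :
    b.pr D (b.pr D' x) = b.pr D x := by
  rw [Bio.pr_apply, Bio.pr_apply b D x]
  refine Finset.sum_congr rfl fun j hj => ?_
  have := Finset.mem_range.1 hj
  rw [b.f_pr (by omega)]

theorem Bio.pr_of_pr (b : Bio X) {D D' : ℕ} (h : D ≤ D') {x : X} (hx : b.pr D x = x) :
    b.pr D' x = x := by
  rw [← hx, Bio.pr_apply b D x, map_sum]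
  refine Finset.sum_congr rfl fun j hj => ?_
  have := Finset.mem_range.1 hj
  rw [map_smul, b.pr_e (by omega)]

/-- A stage of the construction. -/
structure St (b : Bio X) where
  D : ℕ
  K : X →L[ℂ] X
  E : ℕ → ℂ[X]
  hD : 1 ≤ D
  hKf : ∀ x, K (b.pr D x) = K x
  hKr : ∀ x, b.pr D (K x) = K x
  hE : ∀ i < D, aeval K (E i) (b.e 0) = b.e i
  hdeg : ∀ i < D, (E i).natDegree < D
  hnil : (K ^ D) (b.e 0) = 0
  htop0 : ∀ j < D - 1, b.f (D - 1) ((K ^ j) (b.e 0)) = 0
  htop : b.f (D - 1) ((K ^ (D - 1)) (b.e 0)) ≠ 0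

variable {b : Bio X}

/-- The coefficients of the form. -/
noncomputable def St.bet (s : St b) (i j : ℕ) : ℂ := b.f 0 (aeval s.K (s.E i) (b.e j))

/-- The bilinear form. -/
noncomputable def St.B (s : St b) : X →L[ℂ] X →L[ℂ] ℂ :=
  ∑ i ∈ range s.D, ∑ j ∈ range s.D, s.bet i j • (b.f i).smulRight (b.f j)

theorem St.B_apply (s : St b) (x y : X) :
    s.B x y = ∑ i ∈ range s.D, ∑ j ∈ range s.D, s.bet i j * (b.f i x * b.f j y) := by
  unfold St.B
  simp

/-- The operator attached to a vector. -/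
noncomputable def St.M (s : St b) (x : X) : X →L[ℂ] X :=
  aeval s.K (∑ i ∈ range s.D, C (b.f i x) * s.E i)

theorem St.M_apply (s : St b) (x y : X) :
    s.M x y = ∑ i ∈ range s.D, b.f i x • (aeval s.K (s.E i)) y := by
  unfold St.M
  rw [map_sum]
  simp [aeval_C]

theorem St.M_comm (s : St b) (x y z : X) : s.M x (s.M y z) = s.M y (s.M x z) :=
  aeval_comm _ _ _ _

theorem St.M_K (s : St b) (x z : X) : s.M x (s.K z) = s.K (s.M x z) := aeval_K_comm _ _ _

theorem St.M_e0 (s : St b) (x : X) : s.M x (b.e 0) = b.pr s.D x := by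
  rw [St.M_apply, Bio.pr_apply]
  exact Finset.sum_congr rfl fun i hi => by rw [s.hE i (Finset.mem_range.1 hi)]

theorem St.B_eq (s : St b) (x y : X) : s.B x y = b.f 0 (s.M x (s.M y (b.e 0))) := by
  rw [St.B_apply, St.M_e0, St.M_apply, Bio.pr_apply, map_sum]
  refine Finset.sum_congr rfl fun i _ => ?_
  rw [map_sum, Finset.smul_sum, map_sum]
  refine Finset.sum_congr rfl fun j _ => ?_
  unfold St.bet
  rw [map_smul, map_smul, map_smul]
  simp only [smul_eq_mul]
  ring

theorem St.B_symm (s : St b) (x y : X) : s.B x y = s.B y x := by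
  rw [St.B_eq, St.B_eq, St.M_comm]

theorem St.K_M (s : St b) (x : X) : s.K (s.M x (b.e 0)) = s.K x := by
  rw [St.M_e0, s.hKf]

theorem St.M_Kx (s : St b) (x : X) : s.M (s.K x) (b.e 0) = s.K x := by
  rw [St.M_e0, s.hKr]

theorem St.B_K (s : St b) (x y : X) : s.B (s.K x) y = s.B x (s.K y) := by
  rw [St.B_eq, St.B_eq, St.M_comm, s.M_Kx x, s.M_Kx y, ← s.K_M x, ← s.K_M y, s.M_K, s.M_K,
    St.M_comm]

theorem St.B_e0 (s : St b) : s.B (b.e 0) (b.e 0) = 1 := by
  have hD := s.hD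
  rw [St.B_eq, St.M_e0, b.pr_e (by omega), St.M_e0, b.pr_e (by omega), b.bi, if_pos rfl]

end Pool.Agent.MP_7da968
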