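import Mathlib
import Pool.Agent.Lib.MP_7da968_an.State

set_option autoImplicit false

open Filter Topology Polynomial Finset

namespace Pool.Agent.MP_7da968

variable {X : Type*} [NormedAddCommGroup X] [NormedSpace ℂ X] {b : Bio X}

/-- The parameters of a step. -/
structure Par where
  x : ℕ → ℂ
  η : ℂ
  ε : ℂ
  m : ℕ
  hη : η ≠ 0
  hε : ε ≠ 0

/-- Newton polynomials. -/
noncomputable def NN (p : Par) (k : ℕ) : ℂ[X] := ∏ j ∈ range k, (Polynomial.X - C (p.x j))

theorem NN_succ (p : Par) (k : ℕ) : NN p (k + 1) = (Polynomial.X - C (p.x k)) * NN p k := by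
  unfold NN
  rw [Finset.prod_range_succ, mul_comm]

theorem NN_zero (p : Par) : NN p 0 = 1 := rfl

theorem NN_monic (p : Par) (k : ℕ) : (NN p k).Monic :=
  monic_prod_of_monic _ _ fun _ _ => monic_X_sub_C _

theorem NN_natDegree (p : Par) (k : ℕ) : (NN p k).natDegree = k := by
  unfold NN
  rw [natDegree_prod_of_monic _ _ fun _ _ => monic_X_sub_C _]
  simp

namespace St

variable (s : St b) (p : Par)

/-- Newton vectors. -/
noncomputable def g (k : ℕ) : X := aeval s.K (NN p k) (b.e 0)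

theorem g_zero : s.g p 0 = b.e 0 := by
  unfold g
  rw [NN_zero, map_one]; rfl

theorem K_g (k : ℕ) : s.K (s.g p k) = s.g p (k + 1) + p.x k • s.g p k := by
  unfold g
  rw [NN_succ, aeval_mul_apply, map_sub, aeval_X, aeval_C]
  have : (algebraMap ℂ (X →L[ℂ] X) (p.x k)) ((aeval s.K (NN p k)) (b.e 0)) =
      p.x k • (aeval s.K (NN p k)) (b.e 0) := by
    rw [Algebra.algebraMap_eq_smul_one]; rfl
  rw [sub_apply, this]
  abel

theorem e0_pr : b.pr s.D (b.e 0) = b.e 0 := b.pr_e (by have := s.hD; omega)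

theorem pow_pr (k : ℕ) : b.pr s.D ((s.K ^ k) (b.e 0)) = (s.K ^ k) (b.e 0) := by
  cases k with
  | zero => exact s.e0_pr
  | succ k =>
    rw [pow_succ']
    exact s.hKr _

theorem g_pr (k : ℕ) : b.pr s.D (s.g p k) = s.g p k := by
  induction k with
  | zero => rw [g_zero]; exact s.e0_pr
  | succ k ih =>
    have h : s.g p (k + 1) = s.K (s.g p k) - p.x k • s.g p k := by rw [K_g]; abel
    rw [h, map_sub, map_smul, ih, s.hKr]

/-- The top coefficient. -/
noncomputable def h : ℂ := b.f (s.D - 1) ((s.K ^ (s.D - 1)) (b.e 0))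

theorem h_ne : s.h ≠ 0 := s.htop

theorem f_g_top {k : ℕ} (hk : k < s.D) : b.f (s.D - 1) (s.g p k) = if k = s.D - 1 then s.h else 0 := by
  unfold g
  rw [aeval_apply_sum s.K _ _ (k + 1) (by rw [NN_natDegree]; omega), map_sum,
    Finset.sum_range_succ]
  have h1 : ∑ i ∈ range k, b.f (s.D - 1) ((NN p k).coeff i • (s.K ^ i) (b.e 0)) = 0 := by
    refine Finset.sum_eq_zero fun i hi => ?_
    have := Finset.mem_range.1 hi
    rw [map_smul, s.htop0 i (by omega), smul_zero]
  have h2 : (NN p k).coeff k = 1 := by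
    have := NN_monic p k
    unfold Monic leadingCoeff at this
    rwa [NN_natDegree] at this
  rw [h1, zero_add, h2, one_smul]
  split_ifs with hk'
  · rw [hk']; rfl
  · exact s.htop0 k (by omega)

/-- The vector `Q(K) e₀`. -/
noncomputable def r0 : X := s.g p s.D

theorem r0_pr : b.pr s.D (s.r0 p) = s.r0 p := s.g_pr p _

/-- The perturbed operator without the feedback. -/
noncomputable def K0 : X →L[ℂ] X :=
  s.K + (s.h⁻¹ • b.f (s.D - 1)).smulRight (p.η • b.e s.D - s.r0 p) +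
    ∑ l ∈ range p.m, (p.ε • b.f (s.D + l)).smulRight (b.e (s.D + l + 1))

theorem K0_apply (z : X) : s.K0 p z = s.K z + (s.h⁻¹ * b.f (s.D - 1) z) • (p.η • b.e s.D - s.r0 p) +
    ∑ l ∈ range p.m, (p.ε * b.f (s.D + l) z) • b.e (s.D + l + 1) := by
  unfold K0
  simp

theorem K_e_of_le {j : ℕ} (hj : s.D ≤ j) : s.K (b.e j) = 0 := by
  rw [← s.hKf, b.pr_e_of_le hj, map_zero]

theorem f_e {i j : ℕ} (h : i ≠ j) : b.f i (b.e j) = 0 := by rw [b.bi, if_neg h]

theorem f_e_self (i : ℕ) : b.f i (b.e i) = 1 := by rw [b.bi, if_pos rfl]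

/-- `K0` on vectors of the old space. -/
theorem K0_of_pr {z : X} (hz : b.pr s.D z = z) :
    s.K0 p z = s.K z + (s.h⁻¹ * b.f (s.D - 1) z) • (p.η • b.e s.D - s.r0 p) := by
  rw [K0_apply, Finset.sum_eq_zero, add_zero]
  intro l _
  rw [b.f_of_pr (by omega) hz, mul_zero, zero_smul]

theorem K0_g {k : ℕ} (hk : k + 1 < s.D) : s.K0 p (s.g p k) = s.g p (k + 1) + p.x k • s.g p k := by
  rw [s.K0_of_pr p (s.g_pr p k), s.f_g_top p (by omega), if_neg (by omega), mul_zero, zero_smul,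
    add_zero, K_g]

theorem K0_g_top : s.K0 p (s.g p (s.D - 1)) = p.η • b.e s.D + p.x (s.D - 1) • s.g p (s.D - 1) := by
  have hD := s.hD
  rw [s.K0_of_pr p (s.g_pr p _), s.f_g_top p (by omega), if_pos rfl, inv_mul_cancel₀ s.h_ne,
    one_smul, K_g]
  have h1 : s.D - 1 + 1 = s.D := by omega
  unfold r0
  rw [h1]
  abel

theorem K0_e {l : ℕ} (hl : l < p.m) : s.K0 p (b.e (s.D + l)) = p.ε • b.e (s.D + l + 1) := by
  have hD := s.hD
  rw [K0_apply, s.K_e_of_le (by omega), f_e (by omega), mul_zero, zero_smul, zero_add, zero_add,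
    Finset.sum_eq_single l]
  · rw [f_e_self, mul_one]
  · intro i _ hi
    rw [f_e (by omega), mul_zero, zero_smul]
  · intro h
    exact absurd (Finset.mem_range.2 hl) h

theorem K0_e_top : s.K0 p (b.e (s.D + p.m)) = 0 := by
  have hD := s.hD
  rw [K0_apply, s.K_e_of_le (by omega), f_e (by omega), mul_zero, zero_smul, zero_add, zero_add]
  refine Finset.sum_eq_zero fun i hi => ?_
  have := Finset.mem_range.1 hi
  rw [f_e (by omega), mul_zero, zero_smul]

theorem K0_pow {k : ℕ} (hk : k < s.D) : (s.K0 p ^ k) (b.e 0) = (s.K ^ k) (b.e 0) := by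
  induction k with
  | zero => rfl
  | succ k ih =>
    rw [pow_succ', pow_succ']
    change s.K0 p ((s.K0 p ^ k) (b.e 0)) = s.K ((s.K ^ k) (b.e 0))
    rw [ih (by omega), s.K0_of_pr p (s.pow_pr k), s.htop0 k (by omega), mul_zero, zero_smul,
      add_zero]

theorem f_K0_succ {l : ℕ} (hl : l < p.m) (z : X) :
    b.f (s.D + l + 1) (s.K0 p z) = p.ε * b.f (s.D + l) z := by
  rw [K0_apply, map_add, map_add, map_smul, map_sub, map_smul, map_sum]
  rw [b.f_of_pr (by omega) (s.hKr z), b.f_of_pr (by omega) (s.r0_pr p), f_e (by omega)]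
  rw [Finset.sum_eq_single l]
  · rw [map_smul, f_e_self]
    simp
  · intro i _ hi
    rw [map_smul, f_e (by omega), smul_zero]
  · intro h
    exact absurd (Finset.mem_range.2 hl) h

theorem f_K0_D (z : X) : b.f s.D (s.K0 p z) = p.η * (s.h⁻¹ * b.f (s.D - 1) z) := by
  rw [K0_apply, map_add, map_add, map_smul, map_sub, map_smul, map_sum]
  rw [b.f_of_pr le_rfl (s.hKr z), b.f_of_pr le_rfl (s.r0_pr p), f_e_self]
  rw [Finset.sum_eq_zero]
  · simp
    ring
  · intro i _
    rw [map_smul, f_e (by omega), smul_zero]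

theorem f_K0_pow {l : ℕ} (hl : l ≤ p.m) : (∀ k < s.D + l, b.f (s.D + l) ((s.K0 p ^ k) (b.e 0)) = 0) ∧
    b.f (s.D + l) ((s.K0 p ^ (s.D + l)) (b.e 0)) = p.η * p.ε ^ l := by
  have hD := s.hD
  induction l with
  | zero =>
    constructor
    · intro k hk
      cases k with
      | zero => exact f_e (by omega)
      | succ k =>
        rw [pow_succ']
        change b.f (s.D + 0) (s.K0 p ((s.K0 p ^ k) (b.e 0))) = 0
        rw [add_zero, f_K0_D, s.K0_pow p (by omega), s.htop0 k (by omega), mul_zero, mul_zero]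
    · have h1 : s.D + 0 = (s.D - 1) + 1 := by omega
      have h2 : b.f (s.D + 0) = b.f s.D := by rw [add_zero]
      rw [h2, h1, pow_succ']
      change b.f s.D (s.K0 p ((s.K0 p ^ (s.D - 1)) (b.e 0))) = _
      rw [f_K0_D, s.K0_pow p (by omega)]
      change p.η * (s.h⁻¹ * s.h) = _
      rw [inv_mul_cancel₀ s.h_ne, pow_zero]
  | succ l ih =>
    obtain ⟨ih1, ih2⟩ := ih (by omega)
    constructor
    · intro k hk
      cases k with
      | zero => exact f_e (by omega)
      | succ k =>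
        rw [pow_succ']
        change b.f (s.D + l + 1) (s.K0 p ((s.K0 p ^ k) (b.e 0))) = 0
        rw [s.f_K0_succ p (by omega), ih1 k (by omega), mul_zero]
    · rw [← add_assoc, pow_succ' (s.K0 p)]
      change b.f (s.D + l + 1) (s.K0 p ((s.K0 p ^ (s.D + l)) (b.e 0))) = _
      rw [s.f_K0_succ p (by omega), ih2, pow_succ]
      ring

/-- The feedback vector. -/
noncomputable def v : X := -((p.η * p.ε ^ p.m)⁻¹ • (s.K0 p ^ (s.D + p.m + 1)) (b.e 0))

/-- The new operator. -/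
noncomputable def K1 : X →L[ℂ] X := s.K0 p + (b.f (s.D + p.m)).smulRight (s.v p)

theorem K1_apply (z : X) : s.K1 p z = s.K0 p z + b.f (s.D + p.m) z • s.v p := by
  unfold K1
  simp

theorem ηε_ne : p.η * p.ε ^ p.m ≠ 0 := mul_ne_zero p.hη (pow_ne_zero _ p.hε)

theorem K1_pow {k : ℕ} (hk : k ≤ s.D + p.m) : (s.K1 p ^ k) (b.e 0) = (s.K0 p ^ k) (b.e 0) := by
  induction k with
  | zero => rfl
  | succ k ih =>
    rw [pow_succ', pow_succ']
    change s.K1 p ((s.K1 p ^ k) (b.e 0)) = s.K0 p ((s.K0 p ^ k) (b.e 0))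
    rw [ih (by omega), K1_apply, (s.f_K0_pow p le_rfl).1 k (by omega), zero_smul, add_zero]

theorem K1_nil : (s.K1 p ^ (s.D + p.m + 1)) (b.e 0) = 0 := by
  rw [pow_succ']
  change s.K1 p ((s.K1 p ^ (s.D + p.m)) (b.e 0)) = 0
  rw [s.K1_pow p le_rfl, K1_apply, (s.f_K0_pow p le_rfl).2]
  unfold v
  rw [smul_neg, smul_smul, mul_inv_cancel₀ (ηε_ne p), one_smul, pow_succ']
  exact add_neg_cancel _

theorem K0_pr' (z : X) : b.pr (s.D + p.m + 1) (s.K0 p z) = s.K0 p z := by
  rw [K0_apply, map_add, map_add, map_smul, map_sub, map_smul, map_sum]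
  rw [b.pr_of_pr (by omega) (s.hKr z), b.pr_of_pr (by omega) (s.r0_pr p), b.pr_e (by omega)]
  congr 1
  refine Finset.sum_congr rfl fun i hi => ?_
  have := Finset.mem_range.1 hi
  rw [map_smul, b.pr_e (by omega)]

theorem v_pr : b.pr (s.D + p.m + 1) (s.v p) = s.v p := by
  unfold v
  rw [map_neg, map_smul, pow_succ']
  change -((p.η * p.ε ^ p.m)⁻¹ • b.pr (s.D + p.m + 1) (s.K0 p ((s.K0 p ^ (s.D + p.m)) (b.e 0)))) = _
  rw [K0_pr']
  rfl

theorem K1_of_lt {j : ℕ} (hj : j ≠ s.D + p.m) : s.K1 p (b.e j) = s.K0 p (b.e j) := by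
  rw [K1_apply, f_e (by omega), zero_smul, add_zero]

theorem K1_pow_eD {l : ℕ} (hl : l ≤ p.m) : (s.K1 p ^ l) (b.e s.D) = p.ε ^ l • b.e (s.D + l) := by
  induction l with
  | zero => simp
  | succ l ih =>
    rw [pow_succ' (s.K1 p)]
    change s.K1 p ((s.K1 p ^ l) (b.e s.D)) = _
    rw [ih (by omega), map_smul, s.K1_of_lt p (by omega), s.K0_e p (by omega), smul_smul, pow_succ]
    rfl

theorem K1_pow_e {l k : ℕ} (hl : l + k ≤ p.m) :
    (s.K1 p ^ k) (b.e (s.D + l)) = p.ε ^ k • b.e (s.D + l + k) := by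
  induction k with
  | zero => simp
  | succ k ih =>
    rw [pow_succ' (s.K1 p)]
    change s.K1 p ((s.K1 p ^ k) (b.e (s.D + l))) = _
    rw [ih (by omega), map_smul, s.K1_of_lt p (by omega), add_assoc s.D l k,
      s.K0_e p (by omega), smul_smul, pow_succ]
    have : s.D + (l + k) + 1 = s.D + l + (k + 1) := by omega
    rw [this]

/-- `Q(K1) e₀ = η e_D`. -/
theorem K1_Q : aeval (s.K1 p) (NN p s.D) (b.e 0) = p.η • b.e s.D := by
  have hD := s.hD
  have h1 : NN p s.D = (Polynomial.X - C (p.x (s.D - 1))) * NN p (s.D - 1) := by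
    have : s.D = (s.D - 1) + 1 := by omega
    conv_lhs => rw [this]
    rw [NN_succ]
  rw [h1, aeval_mul_apply]
  have h2 : aeval (s.K1 p) (NN p (s.D - 1)) (b.e 0) = s.g p (s.D - 1) := by
    unfold g
    refine aeval_congr (N := s.D) (by rw [NN_natDegree]; omega) fun k hk => ?_
    rw [s.K1_pow p (by omega), s.K0_pow p hk]
  rw [h2, map_sub, aeval_X, aeval_C]
  have : (algebraMap ℂ (X →L[ℂ] X) (p.x (s.D - 1))) (s.g p (s.D - 1)) =
      p.x (s.D - 1) • s.g p (s.D - 1) := by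
    rw [Algebra.algebraMap_eq_smul_one]; rfl
  rw [sub_apply, this, K1_apply, b.f_of_pr (by omega) (s.g_pr p _), zero_smul,
    add_zero, s.K0_g_top]
  abel

/-- The new polynomials. -/
noncomputable def E1 (i : ℕ) : ℂ[X] :=
  if i < s.D then s.E i else
    C ((p.η * p.ε ^ (i - s.D))⁻¹) * (Polynomial.X ^ (i - s.D) * NN p s.D)

theorem E1_of_lt {i : ℕ} (hi : i < s.D) : s.E1 p i = s.E i := if_pos hi

theorem E1_of_ge (l : ℕ) : s.E1 p (s.D + l) =
    C ((p.η * p.ε ^ l)⁻¹) * (Polynomial.X ^ l * NN p s.D) := by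
  unfold E1
  rw [if_neg (by omega), Nat.add_sub_cancel_left]

theorem K1_E1_apply (l : ℕ) (z : X) : aeval (s.K1 p) (s.E1 p (s.D + l)) z =
    (p.η * p.ε ^ l)⁻¹ • (s.K1 p ^ l) (aeval (s.K1 p) (NN p s.D) z) := by
  rw [E1_of_ge, aeval_mul_apply, aeval_C, aeval_mul_apply, map_pow, aeval_X,
    Algebra.algebraMap_eq_smul_one]
  rfl

/-- The new stage. -/
noncomputable def next : St b where
  D := s.D + p.m + 1
  K := s.K1 p
  E := s.E1 p
  hD := by omega
  hKf := fun z => by
    rw [K1_apply, K1_apply, K0_apply, K0_apply, b.f_pr (by omega), b.f_pr (by have := s.hD; omega)]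
    have h1 : s.K (b.pr (s.D + p.m + 1) z) = s.K z := by
      rw [← s.hKf, b.pr_pr_le (by omega), s.hKf]
    rw [h1]
    congr 2
    refine Finset.sum_congr rfl fun i hi => ?_
    have := Finset.mem_range.1 hi
    rw [b.f_pr (by omega)]
  hKr := fun z => by
    rw [K1_apply, map_add, map_smul, K0_pr', v_pr]
  hE := fun i hi => by
    by_cases h : i < s.D
    · rw [E1_of_lt s p h]
      rw [aeval_congr (K := s.K) (K' := s.K1 p) (s.hdeg i h)
        fun k hk => by rw [s.K1_pow p (by omega), s.K0_pow p hk]]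
      exact s.hE i h
    · obtain ⟨l, rfl⟩ := Nat.exists_eq_add_of_le (not_lt.1 h)
      rw [K1_E1_apply, K1_Q, map_smul, s.K1_pow_eD p (by omega), smul_smul, smul_smul, mul_assoc,
        inv_mul_cancel₀ (mul_ne_zero p.hη (pow_ne_zero _ p.hε)), one_smul]
  hdeg := fun i hi => by
    by_cases h : i < s.D
    · rw [E1_of_lt s p h]
      have := s.hdeg i h
      omega
    · obtain ⟨l, rfl⟩ := Nat.exists_eq_add_of_le (not_lt.1 h)
      rw [E1_of_ge]
      refine lt_of_le_of_lt (natDegree_C_mul_le _ _) ?_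
      refine lt_of_le_of_lt natDegree_mul_le ?_
      rw [natDegree_X_pow, NN_natDegree]
      omega
  hnil := s.K1_nil p
  htop0 := fun j hj => by
    have h1 : s.D + p.m + 1 - 1 = s.D + p.m := by omega
    rw [h1] at hj ⊢
    rw [s.K1_pow p hj.le]
    exact (s.f_K0_pow p le_rfl).1 j hj
  htop := by
    have h1 : s.D + p.m + 1 - 1 = s.D + p.m := by omega
    rw [h1, s.K1_pow p le_rfl, (s.f_K0_pow p le_rfl).2]
    exact ηε_ne p

end St

end Pool.Agent.MP_7da968
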