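import Mathlib

set_option autoImplicit false

open Finset

namespace Pool.Agent.MP_7da968

variable {X : Type*} [NormedAddCommGroup X] [NormedSpace ℂ X]

/-- `z` is a combination of the `c i` (`i < N`) of weighted length at most `ρ`. -/
def InB (c : ℕ → X) (w : ℕ → ℝ) (N : ℕ) (ρ : ℝ) (z : X) : Prop :=
  ∃ a : ℕ → ℂ, z = ∑ i ∈ range N, a i • c i ∧ ∑ i ∈ range N, ‖a i‖ * w i ≤ ρ

variable {c : ℕ → X} {w : ℕ → ℝ} {N : ℕ}

theorem InB.mono {ρ ρ' : ℝ} {z : X} (h : InB c w N ρ z) (hρ : ρ ≤ ρ') : InB c w N ρ' z := by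
  obtain ⟨a, h1, h2⟩ := h
  exact ⟨a, h1, h2.trans hρ⟩

theorem InB.zero : InB c w N 0 (0 : X) := ⟨fun _ => 0, by simp, by simp⟩

theorem InB.add (hw : ∀ i < N, 0 ≤ w i) {ρ ρ' : ℝ} {z z' : X} (h : InB c w N ρ z)
    (h' : InB c w N ρ' z') : InB c w N (ρ + ρ') (z + z') := by
  obtain ⟨a, h1, h2⟩ := h
  obtain ⟨a', h1', h2'⟩ := h'
  refine ⟨fun i => a i + a' i, ?_, ?_⟩
  · rw [h1, h1', ← Finset.sum_add_distrib]
    exact Finset.sum_congr rfl fun i _ => by rw [add_smul]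
  · calc ∑ i ∈ range N, ‖a i + a' i‖ * w i ≤ ∑ i ∈ range N, (‖a i‖ * w i + ‖a' i‖ * w i) := by
          refine Finset.sum_le_sum fun i hi => ?_
          rw [← add_mul]
          exact mul_le_mul_of_nonneg_right (norm_add_le _ _) (hw i (Finset.mem_range.1 hi))
      _ = ∑ i ∈ range N, ‖a i‖ * w i + ∑ i ∈ range N, ‖a' i‖ * w i := Finset.sum_add_distrib
      _ ≤ ρ + ρ' := add_le_add h2 h2'

theorem InB.smul (r : ℂ) {ρ : ℝ} {z : X} (h : InB c w N ρ z) : InB c w N (‖r‖ * ρ) (r • z) := by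
  obtain ⟨a, h1, h2⟩ := h
  refine ⟨fun i => r * a i, ?_, ?_⟩
  · rw [h1, Finset.smul_sum]
    exact Finset.sum_congr rfl fun i _ => by rw [mul_smul]
  · calc ∑ i ∈ range N, ‖r * a i‖ * w i = ‖r‖ * ∑ i ∈ range N, ‖a i‖ * w i := by
          rw [Finset.mul_sum]
          exact Finset.sum_congr rfl fun i _ => by rw [norm_mul, mul_assoc]
      _ ≤ ‖r‖ * ρ := mul_le_mul_of_nonneg_left h2 (norm_nonneg _)

theorem InB.base {i : ℕ} (hi : i < N) : InB c w N (w i) (c i) := by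
  refine ⟨fun j => if j = i then 1 else 0, ?_, ?_⟩
  · simp [hi]
  · rw [Finset.sum_eq_single i]
    · simp
    · intro j _ hj
      simp [hj]
    · intro h
      exact absurd (Finset.mem_range.2 hi) h

theorem InB.sum (hw : ∀ i < N, 0 ≤ w i) {ι : Type*} (s : Finset ι) (ρ : ι → ℝ) (z : ι → X)
    (h : ∀ i ∈ s, InB c w N (ρ i) (z i)) : InB c w N (∑ i ∈ s, ρ i) (∑ i ∈ s, z i) := by
  classical
  induction s using Finset.induction_on with
  | empty => simpa using InB.zero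
  | insert i s his ih =>
    rw [Finset.sum_insert his, Finset.sum_insert his]
    exact (h i (Finset.mem_insert_self i s)).add hw
      (ih fun j hj => h j (Finset.mem_insert_of_mem hj))

theorem InB.map (hw : ∀ i < N, 0 ≤ w i) (A : X →L[ℂ] X) {κ : ℝ} (hκ : 0 ≤ κ)
    (hA : ∀ i < N, InB c w N (κ * w i) (A (c i))) {ρ : ℝ} {z : X} (h : InB c w N ρ z) :
    InB c w N (κ * ρ) (A z) := by
  obtain ⟨a, h1, h2⟩ := h
  have h3 : A z = ∑ i ∈ range N, a i • A (c i) := by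
    rw [h1, map_sum]
    exact Finset.sum_congr rfl fun i _ => by rw [map_smul]
  rw [h3]
  have h4 := InB.sum hw (range N) (fun i => ‖a i‖ * (κ * w i)) (fun i => a i • A (c i))
    (fun i hi => (hA i (Finset.mem_range.1 hi)).smul (a i))
  refine h4.mono ?_
  calc ∑ i ∈ range N, ‖a i‖ * (κ * w i) = κ * ∑ i ∈ range N, ‖a i‖ * w i := by
        rw [Finset.mul_sum]
        exact Finset.sum_congr rfl fun i _ => by ring
    _ ≤ κ * ρ := mul_le_mul_of_nonneg_left h2 hκ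

theorem InB.pow_map (hw : ∀ i < N, 0 ≤ w i) (A : X →L[ℂ] X) {κ : ℝ} (hκ : 0 ≤ κ)
    (hA : ∀ i < N, InB c w N (κ * w i) (A (c i))) {ρ : ℝ} {z : X} (h : InB c w N ρ z) (k : ℕ) :
    InB c w N (κ ^ k * ρ) ((A ^ k) z) := by
  induction k with
  | zero => simpa using h
  | succ k ih =>
    have h1 := ih.map hw A hκ hA
    rw [pow_succ', pow_succ', mul_assoc]
    exact h1

theorem InB.norm_le {M : ℝ} (hM : ∀ i < N, ‖c i‖ ≤ M * w i) (hM0 : 0 ≤ M) {ρ : ℝ} {z : X}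
    (h : InB c w N ρ z) : ‖z‖ ≤ M * ρ := by
  obtain ⟨a, h1, h2⟩ := h
  rw [h1]
  calc ‖∑ i ∈ range N, a i • c i‖ ≤ ∑ i ∈ range N, ‖a i‖ * (M * w i) := by
        refine (norm_sum_le _ _).trans (Finset.sum_le_sum fun i hi => ?_)
        rw [norm_smul]
        exact mul_le_mul_of_nonneg_left (hM i (Finset.mem_range.1 hi)) (norm_nonneg _)
    _ = M * ∑ i ∈ range N, ‖a i‖ * w i := by
        rw [Finset.mul_sum]
        exact Finset.sum_congr rfl fun i _ => by ring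
    _ ≤ M * ρ := mul_le_mul_of_nonneg_left h2 hM0

theorem InB.functional_le (φ : X →L[ℂ] ℂ) {M : ℝ} (hM : ∀ i < N, ‖φ (c i)‖ ≤ M * w i)
    (hM0 : 0 ≤ M) {ρ : ℝ} {z : X} (h : InB c w N ρ z) : ‖φ z‖ ≤ M * ρ := by
  obtain ⟨a, h1, h2⟩ := h
  rw [h1, map_sum]
  calc ‖∑ i ∈ range N, φ (a i • c i)‖ ≤ ∑ i ∈ range N, ‖a i‖ * (M * w i) := by
        refine (norm_sum_le _ _).trans (Finset.sum_le_sum fun i hi => ?_)
        rw [map_smul, norm_smul]
        exact mul_le_mul_of_nonneg_left (hM i (Finset.mem_range.1 hi)) (norm_nonneg _)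
    _ = M * ∑ i ∈ range N, ‖a i‖ * w i := by
        rw [Finset.mul_sum]
        exact Finset.sum_congr rfl fun i _ => by ring
    _ ≤ M * ρ := mul_le_mul_of_nonneg_left h2 hM0

end Pool.Agent.MP_7da968
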