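import Mathlib
import Pool.Agent.Lib.MP_7da968_an.Constr
import Pool.Agent.Lib.MP_7da968_an.Gauge

set_option autoImplicit false

open Filter Topology Polynomial Finset

namespace Pool.Agent.MP_7da968

variable {X : Type*} [NormedAddCommGroup X] [NormedSpace ℂ X] {b : Bio X}

/-- Scale data. -/
structure Sc (s : St b) (p : Par) where
  n : ℕ
  c : ℝ
  τ : ℝ
  θ : ℝ
  hn : 1 ≤ n
  hc : 0 < c
  hτ : 0 < τ
  hθ : 1 ≤ θ
  hx : ∀ j < s.D, ‖p.x j‖ ≤ c / n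
  hxn : c ≤ n
  hη : ‖p.η‖ = τ / (n : ℝ) ^ s.D
  hε : ‖p.ε‖ = (1 + c) * θ / n

namespace Sc

variable {s : St b} {p : Par} (q : Sc s p)

theorem n_pos : (0 : ℝ) < q.n := by
  have := q.hn
  exact_mod_cast this

theorem one_le_n : (1 : ℝ) ≤ q.n := by exact_mod_cast q.hn

theorem θ_pos : 0 < q.θ := lt_of_lt_of_le one_pos q.hθ

/-- The gauge vectors. -/
noncomputable def cc (_q : Sc s p) (i : ℕ) : X := if i < s.D then s.g p i else b.e i

/-- The gauge weights. -/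
noncomputable def w (i : ℕ) : ℝ :=
  if i < s.D then ((q.n : ℝ)⁻¹) ^ i else (q.τ * q.θ ^ (i - s.D))⁻¹

theorem cc_lt {i : ℕ} (hi : i < s.D) : q.cc i = s.g p i := if_pos hi

theorem cc_ge (l : ℕ) : q.cc (s.D + l) = b.e (s.D + l) := if_neg (by omega)

theorem w_lt {i : ℕ} (hi : i < s.D) : q.w i = ((q.n : ℝ)⁻¹) ^ i := if_pos hi

theorem w_ge (l : ℕ) : q.w (s.D + l) = (q.τ * q.θ ^ l)⁻¹ := by
  unfold w
  rw [if_neg (by omega), Nat.add_sub_cancel_left]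

theorem w_pos (i : ℕ) : 0 < q.w i := by
  have h1 := q.n_pos
  have h2 := q.θ_pos
  have h3 := q.hτ
  unfold w
  split_ifs <;> positivity

theorem w_nonneg (N : ℕ) : ∀ i < N, 0 ≤ q.w i := fun i _ => (q.w_pos i).le

/-- The constants. -/
noncomputable def C0 : ℝ := 1 + q.c
noncomputable def C1 : ℝ := q.C0 ^ (s.D + 1)

theorem C0_ge : 1 ≤ q.C0 := by
  unfold C0
  linarith [q.hc]

theorem C0_pos : 0 < q.C0 := lt_of_lt_of_le one_pos q.C0_ge

theorem C0_le_C1 : q.C0 ≤ q.C1 := by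
  unfold C1
  exact le_self_pow₀ q.C0_ge (by omega)

theorem C1_pos : 0 < q.C1 := lt_of_lt_of_le q.C0_pos q.C0_le_C1

theorem K0_cc (i : ℕ) (hi : i < s.D + p.m + 1) :
    InB q.cc q.w (s.D + p.m + 1) (q.C0 / q.n * q.w i) (s.K0 p (q.cc i)) := by
  have hD := s.hD
  have hn := q.n_pos
  have hθ := q.θ_pos
  have hτ := q.hτ
  have hw := q.w_nonneg (s.D + p.m + 1)
  rcases lt_or_ge i s.D with h | h
  · rcases Nat.lt_or_ge (i + 1) s.D with h1 | h1
    · rw [q.cc_lt h, s.K0_g p h1]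
      have h2 : InB q.cc q.w (s.D + p.m + 1) (q.w (i + 1)) (s.g p (i + 1)) := by
        have := InB.base (c := q.cc) (w := q.w) (N := s.D + p.m + 1) (i := i + 1) (by omega)
        rwa [q.cc_lt h1] at this
      have h3 : InB q.cc q.w (s.D + p.m + 1) (q.w i) (s.g p i) := by
        have := InB.base (c := q.cc) (w := q.w) (N := s.D + p.m + 1) (i := i) (by omega)
        rwa [q.cc_lt h] at this
      refine (h2.add hw (h3.smul (p.x i))).mono ?_
      rw [q.w_lt h, q.w_lt h1, pow_succ]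
      have h4 := q.hx i h
      have h5 : 0 ≤ ((q.n : ℝ)⁻¹) ^ i := by positivity
      unfold C0
      have h6 : ‖p.x i‖ * ((q.n : ℝ)⁻¹) ^ i ≤ q.c / q.n * ((q.n : ℝ)⁻¹) ^ i :=
        mul_le_mul_of_nonneg_right h4 h5
      calc ((q.n : ℝ)⁻¹) ^ i * (q.n : ℝ)⁻¹ + ‖p.x i‖ * ((q.n : ℝ)⁻¹) ^ i
          ≤ ((q.n : ℝ)⁻¹) ^ i * (q.n : ℝ)⁻¹ + q.c / q.n * ((q.n : ℝ)⁻¹) ^ i := by linarith
        _ = (1 + q.c) / q.n * ((q.n : ℝ)⁻¹) ^ i := by ring
    · have h2 : i = s.D - 1 := by omega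
      rw [q.cc_lt h, h2, s.K0_g_top]
      rw [← h2]
      have h3 : InB q.cc q.w (s.D + p.m + 1) (q.w i) (s.g p i) := by
        have := InB.base (c := q.cc) (w := q.w) (N := s.D + p.m + 1) (i := i) (by omega)
        rwa [q.cc_lt h] at this
      have h4 : InB q.cc q.w (s.D + p.m + 1) (q.w s.D) (b.e s.D) := by
        have := InB.base (c := q.cc) (w := q.w) (N := s.D + p.m + 1) (i := s.D + 0) (by omega)
        rwa [q.cc_ge 0] at this
      refine ((h4.smul p.η).add hw (h3.smul (p.x i))).mono ?_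
      have h5 : q.w s.D = q.τ⁻¹ := by
        have := q.w_ge 0
        rw [add_zero] at this
        rw [this]
        simp
      rw [h5, q.w_lt h, q.hη]
      have h6 := q.hx i h
      have h7 : 0 ≤ ((q.n : ℝ)⁻¹) ^ i := by positivity
      have h8 : ‖p.x i‖ * ((q.n : ℝ)⁻¹) ^ i ≤ q.c / q.n * ((q.n : ℝ)⁻¹) ^ i :=
        mul_le_mul_of_nonneg_right h6 h7
      have h9 : q.τ / (q.n : ℝ) ^ s.D * q.τ⁻¹ = ((q.n : ℝ)⁻¹) ^ i * (q.n : ℝ)⁻¹ := by
        have : s.D = i + 1 := by omega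
        rw [← pow_succ, ← this, inv_pow]
        field_simp
      unfold C0
      calc q.τ / (q.n : ℝ) ^ s.D * q.τ⁻¹ + ‖p.x i‖ * ((q.n : ℝ)⁻¹) ^ i
          ≤ ((q.n : ℝ)⁻¹) ^ i * (q.n : ℝ)⁻¹ + q.c / q.n * ((q.n : ℝ)⁻¹) ^ i := by
            rw [h9]; linarith
        _ = (1 + q.c) / q.n * ((q.n : ℝ)⁻¹) ^ i := by ring
  · obtain ⟨l, rfl⟩ := Nat.exists_eq_add_of_le h
    rw [q.cc_ge]
    rcases Nat.lt_or_ge l p.m with h1 | h1
    · rw [s.K0_e p h1]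
      have h2 : InB q.cc q.w (s.D + p.m + 1) (q.w (s.D + (l + 1))) (b.e (s.D + (l + 1))) := by
        have := InB.base (c := q.cc) (w := q.w) (N := s.D + p.m + 1) (i := s.D + (l + 1)) (by omega)
        rwa [q.cc_ge (l + 1)] at this
      refine (h2.smul p.ε).mono ?_
      rw [q.w_ge, q.w_ge, q.hε, pow_succ]
      unfold C0
      refine le_of_eq ?_
      field_simp
    · have h2 : l = p.m := by omega
      rw [h2, s.K0_e_top]
      refine InB.zero.mono ?_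
      have := q.w_pos (s.D + p.m)
      have := q.C0_pos
      positivity

theorem e0_InB : InB q.cc q.w (s.D + p.m + 1) 1 (b.e 0) := by
  have hD := s.hD
  have := InB.base (c := q.cc) (w := q.w) (N := s.D + p.m + 1) (i := 0) (by omega)
  rw [q.cc_lt (by omega), s.g_zero, q.w_lt (by omega), pow_zero] at this
  exact this

theorem K0_pow_InB (k : ℕ) :
    InB q.cc q.w (s.D + p.m + 1) ((q.C0 / q.n) ^ k) ((s.K0 p ^ k) (b.e 0)) := by
  have h := q.e0_InB.pow_map (q.w_nonneg _) (s.K0 p) (κ := q.C0 / q.n)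
    (div_nonneg q.C0_pos.le q.n_pos.le) q.K0_cc k
  rwa [mul_one] at h

theorem v_InB : InB q.cc q.w (s.D + p.m + 1) (q.C1 / q.n * q.w (s.D + p.m)) (s.v p) := by
  have hn := q.n_pos
  have hθ := q.θ_pos
  have hτ := q.hτ
  have hC0 := q.C0_pos
  unfold St.v
  rw [← neg_smul]
  refine ((q.K0_pow_InB (s.D + p.m + 1)).smul _).mono ?_
  rw [norm_neg, norm_inv, norm_mul, norm_pow, q.hη, q.hε, q.w_ge]
  have h1 : (1 + q.c) = q.C0 := rfl
  rw [h1]
  unfold C1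
  refine le_of_eq ?_
  rw [div_pow, div_pow, mul_pow]
  field_simp
  ring

theorem K1_cc (i : ℕ) (hi : i < s.D + p.m + 1) :
    InB q.cc q.w (s.D + p.m + 1) (q.C1 / q.n * q.w i) (s.K1 p (q.cc i)) := by
  have hn := q.n_pos
  have hle : q.C0 / q.n * q.w i ≤ q.C1 / q.n * q.w i := by
    refine mul_le_mul_of_nonneg_right ?_ (q.w_pos i).le
    exact div_le_div_of_nonneg_right q.C0_le_C1 hn.le
  by_cases h : i = s.D + p.m
  · rw [h, q.cc_ge, s.K1_apply, s.K0_e_top, zero_add, St.f_e_self, one_smul]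
    exact q.v_InB
  · have h1 : s.K1 p (q.cc i) = s.K0 p (q.cc i) := by
      rw [s.K1_apply]
      have h2 : b.f (s.D + p.m) (q.cc i) = 0 := by
        unfold cc
        split_ifs with h3
        · exact b.f_of_pr (by omega) (s.g_pr p i)
        · exact St.f_e (by omega)
      rw [h2, zero_smul, add_zero]
    rw [h1]
    exact (q.K0_cc i hi).mono hle

theorem K1_pow_InB {ρ : ℝ} {z : X} (hz : InB q.cc q.w (s.D + p.m + 1) ρ z) (k : ℕ) :
    InB q.cc q.w (s.D + p.m + 1) ((q.C1 / q.n) ^ k * ρ) ((s.K1 p ^ k) z) :=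
  hz.pow_map (q.w_nonneg _) (s.K1 p) (div_nonneg q.C1_pos.le q.n_pos.le) q.K1_cc k

/-- Norm bound for the Newton vectors. -/
noncomputable def G (_q : Sc s p) : ℝ := (‖s.K‖ + 1) ^ s.D

theorem G_pos : 0 < q.G := by
  unfold G
  have := norm_nonneg s.K
  positivity

include q in
theorem norm_x_le {j : ℕ} (hj : j < s.D) : ‖p.x j‖ ≤ 1 := by
  refine (q.hx j hj).trans ?_
  rw [div_le_one q.n_pos]
  exact q.hxn

include q in
theorem norm_g_le {k : ℕ} (hk : k ≤ s.D) : ‖s.g p k‖ ≤ (‖s.K‖ + 1) ^ k := by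
  induction k with
  | zero => rw [s.g_zero, pow_zero]; exact b.ne 0
  | succ k ih =>
    have h : s.g p (k + 1) = s.K (s.g p k) - p.x k • s.g p k := by rw [s.K_g]; abel
    rw [h]
    have h1 := ih (by omega)
    have h2 := s.K.le_opNorm (s.g p k)
    have h3 := q.norm_x_le (j := k) (by omega)
    have h4 : ‖p.x k • s.g p k‖ ≤ 1 * ‖s.g p k‖ := by
      rw [norm_smul]
      exact mul_le_mul_of_nonneg_right h3 (norm_nonneg _)
    calc ‖s.K (s.g p k) - p.x k • s.g p k‖ ≤ ‖s.K‖ * ‖s.g p k‖ + 1 * ‖s.g p k‖ :=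
          (norm_sub_le _ _).trans (add_le_add h2 h4)
      _ = (‖s.K‖ + 1) * ‖s.g p k‖ := by ring
      _ ≤ (‖s.K‖ + 1) * (‖s.K‖ + 1) ^ k := mul_le_mul_of_nonneg_left h1 (by positivity)
      _ = (‖s.K‖ + 1) ^ (k + 1) := by rw [pow_succ']

theorem norm_g_le_G {k : ℕ} (hk : k ≤ s.D) : ‖s.g p k‖ ≤ q.G :=
  (q.norm_g_le hk).trans (pow_le_pow_right₀ (by linarith [norm_nonneg s.K]) hk)

/-- Conversion constant. -/
noncomputable def MM : ℝ := q.G * (q.n : ℝ) ^ s.D + q.τ * q.θ ^ p.m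

theorem MM_nonneg : 0 ≤ q.MM := by
  have h1 := q.G_pos
  have h2 := q.n_pos
  have h3 := q.hτ
  have h4 := q.θ_pos
  unfold MM
  positivity

theorem one_le_npow {i : ℕ} (hi : i < s.D) : 1 ≤ (q.n : ℝ) ^ s.D * ((q.n : ℝ)⁻¹) ^ i := by
  have h2 := q.n_pos
  have h3 : (q.n : ℝ) ^ s.D * ((q.n : ℝ)⁻¹) ^ i = (q.n : ℝ) ^ (s.D - i) := by
    rw [pow_sub₀ _ h2.ne' hi.le, inv_pow]
  rw [h3]
  exact one_le_pow₀ q.one_le_n

theorem norm_cc_le (i : ℕ) (hi : i < s.D + p.m + 1) : ‖q.cc i‖ ≤ q.MM * q.w i := by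
  have h1 := q.G_pos
  have h2 := q.n_pos
  have h3 := q.hτ
  have h4 := q.θ_pos
  rcases lt_or_ge i s.D with h | h
  · rw [q.cc_lt h, q.w_lt h]
    refine (q.norm_g_le_G h.le).trans ?_
    have h5 := q.one_le_npow h
    have h6 : q.G * 1 ≤ q.G * ((q.n : ℝ) ^ s.D * ((q.n : ℝ)⁻¹) ^ i) :=
      mul_le_mul_of_nonneg_left h5 h1.le
    have h7 : 0 ≤ q.τ * q.θ ^ p.m * ((q.n : ℝ)⁻¹) ^ i := by positivity
    unfold MM
    nlinarith
  · obtain ⟨l, rfl⟩ := Nat.exists_eq_add_of_le h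
    rw [q.cc_ge, q.w_ge]
    refine (b.ne _).trans ?_
    rw [← div_eq_mul_inv, le_div_iff₀ (by positivity), one_mul]
    have h5 : q.θ ^ l ≤ q.θ ^ p.m := pow_le_pow_right₀ q.hθ (by omega)
    have h6 : q.τ * q.θ ^ l ≤ q.τ * q.θ ^ p.m := mul_le_mul_of_nonneg_left h5 h3.le
    have h7 : 0 ≤ q.G * (q.n : ℝ) ^ s.D := by positivity
    unfold MM
    linarith

theorem f0_cc_le (i : ℕ) (_hi : i < s.D + p.m + 1) :
    ‖b.f 0 (q.cc i)‖ ≤ q.G * (q.n : ℝ) ^ s.D * q.w i := by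
  have h1 := q.G_pos
  have h2 := q.n_pos
  have hD := s.hD
  have h0 : ‖b.f 0‖ ≤ 1 := by simpa using b.nf 0
  rcases lt_or_ge i s.D with h | h
  · rw [q.cc_lt h, q.w_lt h]
    have h5 := q.one_le_npow h
    have h6 : q.G * 1 ≤ q.G * ((q.n : ℝ) ^ s.D * ((q.n : ℝ)⁻¹) ^ i) :=
      mul_le_mul_of_nonneg_left h5 h1.le
    have h7 := (b.f 0).le_opNorm (s.g p i)
    have h8 := q.norm_g_le_G h.le
    have h9 : ‖b.f 0‖ * ‖s.g p i‖ ≤ 1 * q.G := mul_le_mul h0 h8 (norm_nonneg _) zero_le_one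
    calc ‖b.f 0 (s.g p i)‖ ≤ q.G := by linarith
      _ ≤ q.G * (q.n : ℝ) ^ s.D * ((q.n : ℝ)⁻¹) ^ i := by rw [mul_assoc]; linarith
  · obtain ⟨l, rfl⟩ := Nat.exists_eq_add_of_le h
    rw [q.cc_ge, St.f_e (by omega), norm_zero]
    have := q.w_pos (s.D + l)
    positivity

/-- Norm of a gauge-bounded vector. -/
theorem norm_of_InB {ρ : ℝ} {z : X} (hz : InB q.cc q.w (s.D + p.m + 1) ρ z) :
    ‖z‖ ≤ q.MM * ρ := hz.norm_le q.norm_cc_le q.MM_nonneg

theorem f0_of_InB {ρ : ℝ} {z : X} (hz : InB q.cc q.w (s.D + p.m + 1) ρ z) :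
    ‖b.f 0 z‖ ≤ q.G * (q.n : ℝ) ^ s.D * ρ :=
  hz.functional_le _ q.f0_cc_le (mul_nonneg q.G_pos.le (pow_nonneg q.n_pos.le _))

end Sc

end Pool.Agent.MP_7da968
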