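import Mathlib
import Pool.Agent.Lib.MP_7da968_an.Est

set_option autoImplicit false

open Filter Topology Polynomial Finset

namespace Pool.Agent.MP_7da968

variable {X : Type*} [NormedAddCommGroup X] [NormedSpace ℂ X] {b : Bio X}

namespace St

variable (s : St b) (p : Par)

/-- The decoupled operator. -/
noncomputable def KD : X →L[ℂ] X := s.K - (s.h⁻¹ • b.f (s.D - 1)).smulRight (s.r0 p)

theorem KD_apply (z : X) : s.KD p z = s.K z - (s.h⁻¹ * b.f (s.D - 1) z) • s.r0 p := by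
  unfold KD
  simp

theorem K1_of_pr {z : X} (hz : b.pr s.D z = z) :
    s.K1 p z = s.KD p z + (p.η * (s.h⁻¹ * b.f (s.D - 1) z)) • b.e s.D := by
  rw [K1_apply, b.f_of_pr (by omega) hz, zero_smul, add_zero, s.K0_of_pr p hz, KD_apply, smul_sub,
    smul_smul, mul_comm p.η]
  abel

theorem KD_pr (z : X) : b.pr s.D (s.KD p z) = s.KD p z := by
  rw [KD_apply, map_sub, map_smul, s.hKr, s.r0_pr]

theorem KD_pow {k : ℕ} (hk : k < s.D) : (s.KD p ^ k) (b.e 0) = (s.K ^ k) (b.e 0) := by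
  induction k with
  | zero => rfl
  | succ k ih =>
    rw [pow_succ', pow_succ']
    change s.KD p ((s.KD p ^ k) (b.e 0)) = s.K ((s.K ^ k) (b.e 0))
    rw [ih (by omega), KD_apply, s.htop0 k (by omega), mul_zero, zero_smul, sub_zero]

theorem KD_g {k : ℕ} (hk : k + 1 < s.D) : s.KD p (s.g p k) = s.g p (k + 1) + p.x k • s.g p k := by
  rw [KD_apply, s.f_g_top p (by omega), if_neg (by omega), mul_zero, zero_smul, sub_zero, K_g]

theorem KD_g_top : s.KD p (s.g p (s.D - 1)) = p.x (s.D - 1) • s.g p (s.D - 1) := by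
  have hD := s.hD
  rw [KD_apply, s.f_g_top p (by omega), if_pos rfl, inv_mul_cancel₀ s.h_ne, one_smul, K_g]
  have h1 : s.D - 1 + 1 = s.D := by omega
  unfold r0
  rw [h1]
  abel

theorem KD_Q : aeval (s.KD p) (NN p s.D) (b.e 0) = 0 := by
  have hD := s.hD
  have h1 : NN p s.D = (Polynomial.X - C (p.x (s.D - 1))) * NN p (s.D - 1) := by
    have : s.D = (s.D - 1) + 1 := by omega
    conv_lhs => rw [this]
    rw [NN_succ]
  rw [h1, aeval_mul_apply]
  have h2 : aeval (s.KD p) (NN p (s.D - 1)) (b.e 0) = s.g p (s.D - 1) := by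
    unfold g
    exact aeval_congr (N := s.D) (by rw [NN_natDegree]; omega) fun k hk => s.KD_pow p hk
  rw [h2, map_sub, aeval_X, aeval_C]
  have : (algebraMap ℂ (X →L[ℂ] X) (p.x (s.D - 1))) (s.g p (s.D - 1)) =
      p.x (s.D - 1) • s.g p (s.D - 1) := by
    rw [Algebra.algebraMap_eq_smul_one]; rfl
  rw [sub_apply, this, KD_g_top, sub_self]

theorem KD_hit (n : ℕ) (P : ℂ[X]) (hP : P.natDegree < s.D)
    (hdvd : NN p s.D ∣ (1 + Polynomial.X) ^ n - P) :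
    ((1 + s.KD p) ^ n) (b.e 0) = aeval (s.K1 p) P (b.e 0) := by
  obtain ⟨R, hR⟩ := hdvd
  have h1 : aeval (s.KD p) ((1 + Polynomial.X) ^ n - P) (b.e 0) = 0 := by
    rw [hR, mul_comm, aeval_mul_apply, KD_Q, map_zero]
  rw [map_sub, map_pow, map_add, map_one, aeval_X, sub_apply, sub_eq_zero] at h1
  rw [h1]
  refine aeval_congr hP fun k hk => ?_
  rw [s.KD_pow p hk, s.K1_pow p (by omega), s.K0_pow p hk]

theorem pow_one_add_pr (k : ℕ) : b.pr s.D (((1 + s.KD p) ^ k) (b.e 0)) = ((1 + s.KD p) ^ k) (b.e 0) := by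
  induction k with
  | zero => exact s.e0_pr
  | succ k ih =>
    rw [pow_succ']
    change b.pr s.D (((1 + s.KD p) ^ k) (b.e 0) + s.KD p (((1 + s.KD p) ^ k) (b.e 0))) = _
    rw [map_add, ih, KD_pr]
    rfl

end St

/-- Divisibility from the roots. -/
theorem NN_dvd (p : Par) (D n : ℕ) (P : ℂ[X]) (hroot : ∀ i < D, (1 + p.x i) ^ n = P.eval (p.x i))
    (hinj : ∀ i < D, ∀ j < D, p.x i = p.x j → i = j) :
    NN p D ∣ (1 + Polynomial.X) ^ n - P := by
  unfold NN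
  refine Finset.prod_dvd_of_coprime ?_ ?_
  · intro i hi j hj hij
    refine isCoprime_X_sub_C_of_isUnit_sub ?_
    rw [isUnit_iff_ne_zero, sub_ne_zero]
    exact fun h => hij (hinj i (Finset.mem_range.1 hi) j (Finset.mem_range.1 hj) h)
  · intro i hi
    rw [dvd_iff_isRoot, IsRoot, eval_sub, eval_pow, eval_add, eval_one, eval_X,
      hroot i (Finset.mem_range.1 hi), sub_self]

namespace Sc

variable {s : St b} {p : Par} (q : Sc s p)

theorem KD_cc (i : ℕ) (hi : i < s.D) :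
    InB q.cc q.w s.D ((1 + q.C0 / q.n) * q.w i) ((1 + s.KD p) (q.cc i)) := by
  have hD := s.hD
  have hn := q.n_pos
  have hw := q.w_nonneg s.D
  have h3 : InB q.cc q.w s.D (q.w i) (s.g p i) := by
    have := InB.base (c := q.cc) (w := q.w) (N := s.D) (i := i) hi
    rwa [q.cc_lt hi] at this
  have h4 := q.hx i hi
  have h5 : 0 ≤ ((q.n : ℝ)⁻¹) ^ i := by positivity
  have h6 : ‖p.x i‖ * ((q.n : ℝ)⁻¹) ^ i ≤ q.c / q.n * ((q.n : ℝ)⁻¹) ^ i :=
    mul_le_mul_of_nonneg_right h4 h5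
  rw [q.cc_lt hi]
  change InB q.cc q.w s.D _ (s.g p i + s.KD p (s.g p i))
  rcases Nat.lt_or_ge (i + 1) s.D with h1 | h1
  · rw [s.KD_g p h1]
    have h2 : InB q.cc q.w s.D (q.w (i + 1)) (s.g p (i + 1)) := by
      have := InB.base (c := q.cc) (w := q.w) (N := s.D) (i := i + 1) h1
      rwa [q.cc_lt h1] at this
    refine (h3.add hw (h2.add hw (h3.smul (p.x i)))).mono ?_
    rw [q.w_lt hi, q.w_lt h1, pow_succ]
    unfold C0
    calc ((q.n : ℝ)⁻¹) ^ i + (((q.n : ℝ)⁻¹) ^ i * (q.n : ℝ)⁻¹ + ‖p.x i‖ * ((q.n : ℝ)⁻¹) ^ i)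
        ≤ ((q.n : ℝ)⁻¹) ^ i + (((q.n : ℝ)⁻¹) ^ i * (q.n : ℝ)⁻¹ + q.c / q.n * ((q.n : ℝ)⁻¹) ^ i) := by
          linarith
      _ = (1 + (1 + q.c) / q.n) * ((q.n : ℝ)⁻¹) ^ i := by ring
  · have h2 : i = s.D - 1 := by omega
    rw [h2, s.KD_g_top, ← h2]
    refine (h3.add hw (h3.smul (p.x i))).mono ?_
    rw [q.w_lt hi]
    unfold C0
    have h7 : 0 ≤ (q.n : ℝ)⁻¹ * ((q.n : ℝ)⁻¹) ^ i := by positivity
    calc ((q.n : ℝ)⁻¹) ^ i + ‖p.x i‖ * ((q.n : ℝ)⁻¹) ^ i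
        ≤ ((q.n : ℝ)⁻¹) ^ i + ((q.n : ℝ)⁻¹ * ((q.n : ℝ)⁻¹) ^ i + q.c / q.n * ((q.n : ℝ)⁻¹) ^ i) := by
          linarith
      _ = (1 + (1 + q.c) / q.n) * ((q.n : ℝ)⁻¹) ^ i := by ring

theorem alpha_le (k : ℕ) (hk : k ≤ q.n) :
    ‖p.η * (s.h⁻¹ * b.f (s.D - 1) (((1 + s.KD p) ^ k) (b.e 0)))‖ ≤
      q.τ / q.n * Real.exp q.C0 := by
  have hD := s.hD
  have hn := q.n_pos
  have hτ := q.hτ
  have hC0 := q.C0_pos
  have h1 : InB q.cc q.w s.D 1 (b.e 0) := by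
    have := InB.base (c := q.cc) (w := q.w) (N := s.D) (i := 0) (by omega)
    rw [q.cc_lt (by omega), s.g_zero, q.w_lt (by omega), pow_zero] at this
    exact this
  have h2 := h1.pow_map (q.w_nonneg _) (1 + s.KD p) (κ := 1 + q.C0 / q.n)
    (by positivity) q.KD_cc k
  rw [mul_one] at h2
  have h3 := h2.functional_le (s.h⁻¹ • b.f (s.D - 1)) (M := (q.n : ℝ) ^ (s.D - 1)) (fun i hi => by
    rw [smul_apply, smul_eq_mul, q.cc_lt hi, s.f_g_top p hi, q.w_lt hi]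
    split_ifs with h
    · rw [inv_mul_cancel₀ s.h_ne, norm_one, h, inv_pow, mul_inv_cancel₀ (by positivity)]
    · rw [mul_zero, norm_zero]
      positivity) (by positivity)
  rw [smul_apply, smul_eq_mul] at h3
  have h4 : (1 + q.C0 / q.n) ^ k ≤ Real.exp q.C0 := by
    have h5 : 1 + q.C0 / q.n ≤ Real.exp (q.C0 / q.n) := by
      have := Real.add_one_le_exp (q.C0 / q.n)
      linarith
    calc (1 + q.C0 / q.n) ^ k ≤ (Real.exp (q.C0 / q.n)) ^ k :=
          pow_le_pow_left₀ (by positivity) h5 k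
      _ = Real.exp (k * (q.C0 / q.n)) := by rw [← Real.exp_nat_mul]
      _ ≤ Real.exp q.C0 := by
          refine Real.exp_le_exp.2 ?_
          have h6 : (k : ℝ) ≤ q.n := by exact_mod_cast hk
          calc (k : ℝ) * (q.C0 / q.n) ≤ q.n * (q.C0 / q.n) :=
                mul_le_mul_of_nonneg_right h6 (by positivity)
            _ = q.C0 := by field_simp
  rw [norm_mul, q.hη]
  calc q.τ / (q.n : ℝ) ^ s.D * ‖s.h⁻¹ * b.f (s.D - 1) (((1 + s.KD p) ^ k) (b.e 0))‖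
      ≤ q.τ / (q.n : ℝ) ^ s.D * ((q.n : ℝ) ^ (s.D - 1) * (1 + q.C0 / q.n) ^ k) :=
        mul_le_mul_of_nonneg_left h3 (by positivity)
    _ ≤ q.τ / (q.n : ℝ) ^ s.D * ((q.n : ℝ) ^ (s.D - 1) * Real.exp q.C0) := by
        refine mul_le_mul_of_nonneg_left ?_ (by positivity)
        exact mul_le_mul_of_nonneg_left h4 (by positivity)
    _ = q.τ / q.n * Real.exp q.C0 := by
        have : (q.n : ℝ) ^ s.D = (q.n : ℝ) ^ (s.D - 1) * q.n := by
          rw [← pow_succ]; congr 1; omega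
        rw [this]
        field_simp

theorem norm_K1_pow_eD (B : ℝ) (hB : 1 ≤ B) (i : ℕ) :
    ‖(s.K1 p ^ i) (b.e s.D)‖ ≤ ‖p.ε‖ ^ i + q.MM / q.τ / B ^ p.m * (q.C1 * B / q.n) ^ i := by
  have hn := q.n_pos
  have hτ := q.hτ
  have hC1 := q.C1_pos
  have hMM := q.MM_nonneg
  have hB0 : 0 < B := lt_of_lt_of_le one_pos hB
  rcases Nat.lt_or_ge p.m i with h | h
  · have h1 : InB q.cc q.w (s.D + p.m + 1) (q.τ⁻¹) (b.e s.D) := by
      have := InB.base (c := q.cc) (w := q.w) (N := s.D + p.m + 1) (i := s.D + 0) (by omega)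
      rw [q.cc_ge 0, q.w_ge 0, pow_zero, mul_one] at this
      exact this
    have h2 := q.norm_of_InB (q.K1_pow_InB h1 i)
    refine h2.trans ?_
    have h3 : B ^ p.m ≤ B ^ i := pow_le_pow_right₀ hB h.le
    have h4 : (q.C1 / q.n) ^ i ≤ (q.C1 * B / q.n) ^ i / B ^ p.m := by
      rw [le_div_iff₀ (by positivity)]
      calc (q.C1 / q.n) ^ i * B ^ p.m ≤ (q.C1 / q.n) ^ i * B ^ i :=
            mul_le_mul_of_nonneg_left h3 (by positivity)
        _ = (q.C1 * B / q.n) ^ i := by rw [← mul_pow]; congr 1; ring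
    have h5 : 0 ≤ ‖p.ε‖ ^ i := by positivity
    calc q.MM * ((q.C1 / q.n) ^ i * q.τ⁻¹) ≤ q.MM * ((q.C1 * B / q.n) ^ i / B ^ p.m * q.τ⁻¹) := by
          refine mul_le_mul_of_nonneg_left ?_ hMM
          exact mul_le_mul_of_nonneg_right h4 (by positivity)
      _ = q.MM / q.τ / B ^ p.m * (q.C1 * B / q.n) ^ i := by field_simp
      _ ≤ _ := by linarith
  · rw [s.K1_pow_eD p h, norm_smul, norm_pow]
    have h1 := b.ne (s.D + i)
    have h2 : ‖p.ε‖ ^ i * ‖b.e (s.D + i)‖ ≤ ‖p.ε‖ ^ i * 1 :=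
      mul_le_mul_of_nonneg_left h1 (by positivity)
    have h3 : 0 ≤ q.MM / q.τ / B ^ p.m * (q.C1 * B / q.n) ^ i := by positivity
    linarith

theorem norm_one_add_K1_pow (B : ℝ) (hB : 1 ≤ B) (j : ℕ) (hj : j ≤ q.n) :
    ‖((1 + s.K1 p) ^ j) (b.e s.D)‖ ≤
      Real.exp (q.C0 * q.θ) + q.MM / q.τ / B ^ p.m * Real.exp (q.C1 * B) := by
  have hn := q.n_pos
  have hτ := q.hτ
  have hθ := q.θ_pos
  have hC0 := q.C0_pos
  have hC1 := q.C1_pos
  have hMM := q.MM_nonneg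
  have hB0 : 0 < B := lt_of_lt_of_le one_pos hB
  have h1 : (1 + s.K1 p) ^ j = ∑ i ∈ range (j + 1), (j.choose i : ℂ) • (s.K1 p) ^ i := by
    rw [add_comm, (Commute.one_right (s.K1 p)).add_pow]
    refine Finset.sum_congr rfl fun i _ => ?_
    rw [one_pow, mul_one, ← nsmul_eq_mul', Nat.cast_smul_eq_nsmul]
  rw [h1, _root_.sum_apply]
  refine (norm_sum_le _ _).trans ?_
  have h2 : ∀ i ∈ range (j + 1), ‖((j.choose i : ℂ) • (s.K1 p) ^ i) (b.e s.D)‖ ≤
      (q.C0 * q.θ) ^ i / (i.factorial : ℝ) +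
        q.MM / q.τ / B ^ p.m * ((q.C1 * B) ^ i / (i.factorial : ℝ)) := by
    intro i _
    rw [smul_apply, norm_smul, Complex.norm_natCast]
    have h3 : (j.choose i : ℝ) ≤ (q.n : ℝ) ^ i / (i.factorial : ℝ) := by
      refine (Nat.choose_le_pow_div (α := ℝ) i j).trans ?_
      refine div_le_div_of_nonneg_right ?_ (by positivity)
      exact pow_le_pow_left₀ (Nat.cast_nonneg j) (by exact_mod_cast hj) i
    have h4 := q.norm_K1_pow_eD B hB i
    calc (j.choose i : ℝ) * ‖(s.K1 p ^ i) (b.e s.D)‖ ≤ ((q.n : ℝ) ^ i / (i.factorial : ℝ)) *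
          (‖p.ε‖ ^ i + q.MM / q.τ / B ^ p.m * (q.C1 * B / q.n) ^ i) :=
          mul_le_mul h3 h4 (norm_nonneg _) (by positivity)
      _ = (q.C0 * q.θ) ^ i / (i.factorial : ℝ) +
        q.MM / q.τ / B ^ p.m * ((q.C1 * B) ^ i / (i.factorial : ℝ)) := by
          rw [q.hε]
          have h5 : 1 + q.c = q.C0 := rfl
          rw [h5, div_pow, div_pow]
          field_simp
  refine (Finset.sum_le_sum h2).trans ?_
  rw [Finset.sum_add_distrib, ← Finset.mul_sum]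
  have h6 := Real.sum_le_exp_of_nonneg (x := q.C0 * q.θ) (by positivity) (j + 1)
  have h7 := Real.sum_le_exp_of_nonneg (x := q.C1 * B) (by positivity) (j + 1)
  have h8 : q.MM / q.τ / B ^ p.m * ∑ i ∈ range (j + 1), (q.C1 * B) ^ i / (i.factorial : ℝ) ≤
      q.MM / q.τ / B ^ p.m * Real.exp (q.C1 * B) := mul_le_mul_of_nonneg_left h7 (by positivity)
  linarith

theorem hit (P : ℂ[X]) (hP : P.natDegree < s.D)
    (hdvd : NN p s.D ∣ (1 + Polynomial.X) ^ q.n - P) (B : ℝ) (hB : 1 ≤ B) :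
    ‖((1 + s.K1 p) ^ q.n) (b.e 0) - aeval (s.K1 p) P (b.e 0)‖ ≤ q.τ * Real.exp q.C0 *
      (Real.exp (q.C0 * q.θ) + q.MM / q.τ / B ^ p.m * Real.exp (q.C1 * B)) := by
  have hn := q.n_pos
  have hτ := q.hτ
  set S := Real.exp (q.C0 * q.θ) + q.MM / q.τ / B ^ p.m * Real.exp (q.C1 * B) with hS
  rw [← s.KD_hit p q.n P hP hdvd]
  have key : ∀ k j : ℕ, k + j ≤ q.n →
      ‖((1 + s.K1 p) ^ j) (((1 + s.K1 p) ^ k) (b.e 0) - ((1 + s.KD p) ^ k) (b.e 0))‖ ≤
        k * (q.τ / q.n * Real.exp q.C0 * S) := by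
    intro k
    induction k with
    | zero =>
      intro j _
      rw [pow_zero, pow_zero, sub_self, map_zero, norm_zero, Nat.cast_zero, zero_mul]
    | succ k ih =>
      intro j hj
      have h1 : ((1 + s.K1 p) ^ (k + 1)) (b.e 0) - ((1 + s.KD p) ^ (k + 1)) (b.e 0) =
          (1 + s.K1 p) (((1 + s.K1 p) ^ k) (b.e 0) - ((1 + s.KD p) ^ k) (b.e 0)) +
          (p.η * (s.h⁻¹ * b.f (s.D - 1) (((1 + s.KD p) ^ k) (b.e 0)))) • b.e s.D := by
        have h2 := s.K1_of_pr p (s.pow_one_add_pr p k)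
        rw [pow_succ', pow_succ']
        change (((1 + s.K1 p) ^ k) (b.e 0) + s.K1 p (((1 + s.K1 p) ^ k) (b.e 0))) -
          (((1 + s.KD p) ^ k) (b.e 0) + s.KD p (((1 + s.KD p) ^ k) (b.e 0))) =
          ((((1 + s.K1 p) ^ k) (b.e 0) - ((1 + s.KD p) ^ k) (b.e 0)) +
            s.K1 p (((1 + s.K1 p) ^ k) (b.e 0) - ((1 + s.KD p) ^ k) (b.e 0))) + _
        rw [map_sub, h2]
        abel
      rw [h1, map_add, map_smul]
      have h3 : ((1 + s.K1 p) ^ j) ((1 + s.K1 p)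
          (((1 + s.K1 p) ^ k) (b.e 0) - ((1 + s.KD p) ^ k) (b.e 0))) =
          ((1 + s.K1 p) ^ (j + 1)) (((1 + s.K1 p) ^ k) (b.e 0) - ((1 + s.KD p) ^ k) (b.e 0)) := by
        rw [pow_succ]; rfl
      rw [h3]
      have h4 := ih (j + 1) (by omega)
      have h5 := q.alpha_le k (by omega)
      have h6 := q.norm_one_add_K1_pow B hB j (by omega)
      have h7 : ‖(p.η * (s.h⁻¹ * b.f (s.D - 1) (((1 + s.KD p) ^ k) (b.e 0)))) •
          ((1 + s.K1 p) ^ j) (b.e s.D)‖ ≤ q.τ / q.n * Real.exp q.C0 * S := by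
        rw [norm_smul]
        exact mul_le_mul h5 h6 (norm_nonneg _) (by positivity)
      refine (norm_add_le _ _).trans ?_
      rw [Nat.cast_succ, add_mul, one_mul]
      exact add_le_add h4 h7
  have h8 := key q.n 0 (by omega)
  rw [pow_zero] at h8
  refine le_trans h8 (le_of_eq ?_)
  field_simp

end Sc

end Pool.Agent.MP_7da968
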