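import Mathlib
import Pool.Agent.Lib.MP_7da968_an.Hit

set_option autoImplicit false

open Filter Topology Polynomial Finset

namespace Pool.Agent.MP_7da968

variable {X : Type*} [NormedAddCommGroup X] [NormedSpace ℂ X] {b : Bio X}

theorem norm_f_smulRight (b : Bio X) {Y : Type*} [NormedAddCommGroup Y] [NormedSpace ℂ Y] (i : ℕ)
    (y : Y) : ‖(b.f i).smulRight y‖ ≤ 2 ^ i * ‖y‖ := by
  rw [ContinuousLinearMap.norm_smulRight_apply]
  exact mul_le_mul_of_nonneg_right (b.nf i) (norm_nonneg _)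

namespace Sc

variable {s : St b} {p : Par} (q : Sc s p)

theorem g_sub_pow {k : ℕ} (hk : k ≤ s.D) :
    ‖s.g p k - (s.K ^ k) (b.e 0)‖ ≤ k * (q.c / q.n) * (‖s.K‖ + 1) ^ k := by
  have hn := q.n_pos
  have hc := q.hc
  induction k with
  | zero => rw [s.g_zero, pow_zero]; simp
  | succ k ih =>
    have h : s.g p (k + 1) - (s.K ^ (k + 1)) (b.e 0) =
        s.K (s.g p k - (s.K ^ k) (b.e 0)) - p.x k • s.g p k := by
      have h1 : s.g p (k + 1) = s.K (s.g p k) - p.x k • s.g p k := by rw [s.K_g]; abel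
      rw [h1, pow_succ']
      change s.K (s.g p k) - p.x k • s.g p k - s.K ((s.K ^ k) (b.e 0)) = _
      rw [map_sub]
      abel
    rw [h]
    have h1 := ih (by omega)
    have h2 := s.K.le_opNorm (s.g p k - (s.K ^ k) (b.e 0))
    have h3 := q.hx k (by omega)
    have h4 := q.norm_g_le (k := k) (by omega)
    have h5 : ‖p.x k • s.g p k‖ ≤ q.c / q.n * (‖s.K‖ + 1) ^ k := by
      rw [norm_smul]
      exact mul_le_mul h3 h4 (norm_nonneg _) (by positivity)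
    have h6 : ‖s.K‖ * ‖s.g p k - (s.K ^ k) (b.e 0)‖ ≤
        ‖s.K‖ * (k * (q.c / q.n) * (‖s.K‖ + 1) ^ k) := mul_le_mul_of_nonneg_left h1 (norm_nonneg _)
    have h7 : 0 ≤ k * (q.c / q.n) * (‖s.K‖ + 1) ^ k := by positivity
    have h8 : 0 ≤ ‖s.K‖ * (q.c / q.n * (‖s.K‖ + 1) ^ k) := by positivity
    rw [Nat.cast_succ]
    calc ‖s.K (s.g p k - (s.K ^ k) (b.e 0)) - p.x k • s.g p k‖
        ≤ ‖s.K‖ * (k * (q.c / q.n) * (‖s.K‖ + 1) ^ k) + q.c / q.n * (‖s.K‖ + 1) ^ k :=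
          (norm_sub_le _ _).trans (add_le_add (h2.trans h6) h5)
      _ ≤ ((k : ℝ) + 1) * (q.c / q.n) * (‖s.K‖ + 1) ^ (k + 1) := by
          rw [pow_succ]
          nlinarith

theorem norm_r0_le : ‖s.r0 p‖ ≤ s.D * (q.c / q.n) * q.G := by
  have h := q.g_sub_pow (k := s.D) le_rfl
  rw [s.hnil, sub_zero] at h
  exact h

theorem norm_v_le : ‖s.v p‖ ≤ q.MM * (q.C1 / q.n * (q.τ * q.θ ^ p.m)⁻¹) := by
  have h := q.norm_of_InB q.v_InB
  rwa [q.w_ge] at h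

/-- **(E1)** -/
theorem norm_K1_sub_le : ‖s.K1 p - s.K‖ ≤
    ‖s.h⁻¹‖ * 2 ^ s.D * (q.τ / (q.n : ℝ) ^ s.D + s.D * (q.c / q.n) * q.G) +
      q.C0 * q.θ / q.n * 2 ^ (s.D + p.m) +
      2 ^ (s.D + p.m) * (q.MM * (q.C1 / q.n * (q.τ * q.θ ^ p.m)⁻¹)) := by
  have hn := q.n_pos
  have hD := s.hD
  have h1 : s.K1 p - s.K = (s.h⁻¹ • (b.f (s.D - 1)).smulRight (p.η • b.e s.D - s.r0 p)) +
      (∑ l ∈ range p.m, p.ε • (b.f (s.D + l)).smulRight (b.e (s.D + l + 1))) +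
      (b.f (s.D + p.m)).smulRight (s.v p) := by
    ext z
    rw [sub_apply, s.K1_apply, s.K0_apply]
    simp [smul_smul]
    abel
  rw [h1]
  refine (norm_add_le _ _).trans (add_le_add ((norm_add_le _ _).trans (add_le_add ?_ ?_)) ?_)
  · rw [norm_smul, mul_assoc]
    refine mul_le_mul_of_nonneg_left ?_ (norm_nonneg _)
    refine (norm_f_smulRight b _ _).trans ?_
    have h2 : ‖p.η • b.e s.D - s.r0 p‖ ≤ q.τ / (q.n : ℝ) ^ s.D + s.D * (q.c / q.n) * q.G := by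
      refine (norm_sub_le _ _).trans (add_le_add ?_ q.norm_r0_le)
      rw [norm_smul, q.hη]
      have := b.ne s.D
      have h3 : 0 ≤ q.τ / (q.n : ℝ) ^ s.D := by
        have := q.hτ
        positivity
      exact mul_le_of_le_one_right h3 this
    exact mul_le_mul (pow_le_pow_right₀ (by norm_num) (by omega)) h2 (norm_nonneg _) (by positivity)
  · have h2 : ∀ l ∈ range p.m, ‖p.ε • (b.f (s.D + l)).smulRight (b.e (s.D + l + 1))‖ ≤
        q.C0 * q.θ / q.n * 2 ^ (s.D + l) := by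
      intro l _
      rw [norm_smul, q.hε]
      have h3 : 0 ≤ (1 + q.c) * q.θ / q.n := by
        have := q.hc
        have := q.θ_pos
        positivity
      refine mul_le_mul_of_nonneg_left ?_ h3
      refine (norm_f_smulRight b _ _).trans ?_
      have := b.ne (s.D + l + 1)
      exact mul_le_of_le_one_right (by positivity) this
    refine (norm_sum_le _ _).trans ((Finset.sum_le_sum h2).trans ?_)
    rw [← Finset.mul_sum]
    have h3 : 0 ≤ q.C0 * q.θ / q.n := by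
      have := q.C0_pos
      have := q.θ_pos
      positivity
    refine mul_le_mul_of_nonneg_left ?_ h3
    have h4 : ∑ l ∈ range p.m, (2 : ℝ) ^ (s.D + l) = 2 ^ s.D * (2 ^ p.m - 1) := by
      simp_rw [pow_add]
      rw [← Finset.mul_sum, geom_sum_eq (by norm_num)]
      norm_num
    rw [h4, pow_add]
    have : (0 : ℝ) < 2 ^ s.D := by positivity
    nlinarith
  · refine (norm_f_smulRight b _ _).trans ?_
    exact mul_le_mul_of_nonneg_left q.norm_v_le (by positivity)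

/-- (b) cross coefficients. -/
theorem f0_pow_e_le {k l : ℕ} (hk : k < s.D) (hl : l ≤ p.m) :
    ‖b.f 0 ((s.K1 p ^ k) (b.e (s.D + l)))‖ ≤
      q.G * q.C1 ^ s.D * q.τ⁻¹ * q.θ ^ s.D * ((q.n : ℝ) ^ s.D / q.θ ^ p.m) := by
  have hn := q.n_pos
  have hD := s.hD
  have hG := q.G_pos
  have hC1 := q.C1_pos
  have hτ := q.hτ
  have hθ := q.θ_pos
  rcases Nat.lt_or_ge p.m (l + k) with h | h
  · have h1 : InB q.cc q.w (s.D + p.m + 1) ((q.τ * q.θ ^ l)⁻¹) (b.e (s.D + l)) := by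
      have := InB.base (c := q.cc) (w := q.w) (N := s.D + p.m + 1) (i := s.D + l) (by omega)
      rw [q.cc_ge l, q.w_ge l] at this
      exact this
    refine (q.f0_of_InB (q.K1_pow_InB h1 k)).trans ?_
    have h2 : (q.C1 / q.n) ^ k ≤ q.C1 ^ s.D := by
      have h3 : q.C1 / q.n ≤ q.C1 := div_le_self hC1.le q.one_le_n
      have h4 : 1 ≤ q.C1 := q.C0_ge.trans q.C0_le_C1
      exact (pow_le_pow_left₀ (by positivity) h3 k).trans (pow_le_pow_right₀ h4 hk.le)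
    have h5 : (q.τ * q.θ ^ l)⁻¹ ≤ q.τ⁻¹ * (q.θ ^ s.D / q.θ ^ p.m) := by
      rw [mul_inv]
      refine mul_le_mul_of_nonneg_left ?_ (by positivity)
      rw [inv_eq_one_div, div_le_div_iff₀ (by positivity) (by positivity), one_mul, ← pow_add]
      exact pow_le_pow_right₀ q.hθ (by omega)
    calc q.G * (q.n : ℝ) ^ s.D * ((q.C1 / q.n) ^ k * (q.τ * q.θ ^ l)⁻¹)
        ≤ q.G * (q.n : ℝ) ^ s.D * (q.C1 ^ s.D * (q.τ⁻¹ * (q.θ ^ s.D / q.θ ^ p.m))) := by
          refine mul_le_mul_of_nonneg_left ?_ (by positivity)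
          exact mul_le_mul h2 h5 (by positivity) (by positivity)
      _ = _ := by ring
  · rw [s.K1_pow_e p h, map_smul, St.f_e (by omega), smul_zero, norm_zero]
    positivity

theorem bet_cross {i l : ℕ} (hi : i < s.D) (hl : l ≤ p.m) :
    ‖(s.next p).bet i (s.D + l)‖ ≤ (∑ k ∈ range s.D, ‖(s.E i).coeff k‖) *
      (q.G * q.C1 ^ s.D * q.τ⁻¹ * q.θ ^ s.D * ((q.n : ℝ) ^ s.D / q.θ ^ p.m)) := by
  have h1 : (s.next p).bet i (s.D + l) =
      ∑ k ∈ range s.D, (s.E i).coeff k * b.f 0 ((s.K1 p ^ k) (b.e (s.D + l))) := by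
    change b.f 0 (aeval (s.K1 p) (s.E1 p i) (b.e (s.D + l))) = _
    rw [s.E1_of_lt p hi, aeval_apply_sum _ _ _ s.D (s.hdeg i hi), map_sum]
    exact Finset.sum_congr rfl fun k _ => by rw [map_smul, smul_eq_mul]
  rw [h1, Finset.sum_mul]
  refine (norm_sum_le _ _).trans (Finset.sum_le_sum fun k hk => ?_)
  rw [norm_mul]
  exact mul_le_mul_of_nonneg_left (q.f0_pow_e_le (Finset.mem_range.1 hk) hl) (norm_nonneg _)

/-- The ratio. -/
noncomputable def vt : ℝ := q.θ / q.C0 ^ s.D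

theorem NN_InB {ρ : ℝ} {z : X} (hz : InB q.cc q.w (s.D + p.m + 1) ρ z) {k : ℕ} (hk : k ≤ s.D) :
    InB q.cc q.w (s.D + p.m + 1) (((q.C1 + q.c) / q.n) ^ k * ρ) (aeval (s.K1 p) (NN p k) z) := by
  have hn := q.n_pos
  have hC1 := q.C1_pos
  have hc := q.hc
  induction k with
  | zero => rw [NN_zero, map_one, pow_zero, one_mul]; exact hz
  | succ k ih =>
    have ih := ih (by omega)
    rw [NN_succ, aeval_mul_apply, map_sub, aeval_X, aeval_C]
    set y := aeval (s.K1 p) (NN p k) z with hy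
    have h1 : (s.K1 p - algebraMap ℂ (X →L[ℂ] X) (p.x k)) y = s.K1 p y + (-p.x k) • y := by
      rw [sub_apply, Algebra.algebraMap_eq_smul_one, neg_smul, ← sub_eq_add_neg]
      rfl
    rw [h1]
    have h2 := q.K1_pow_InB ih 1
    rw [pow_one, pow_one] at h2
    refine (h2.add (q.w_nonneg _) (ih.smul (-p.x k))).mono ?_
    rw [norm_neg]
    have h3 := q.hx k (by omega)
    have h4 : 0 ≤ ρ := by
      obtain ⟨a, -, ha⟩ := hz
      refine le_trans (Finset.sum_nonneg fun i _ => ?_) ha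
      exact mul_nonneg (norm_nonneg _) (q.w_pos i).le
    have h5 : 0 ≤ ((q.C1 + q.c) / q.n) ^ k * ρ := by positivity
    have h6 : ‖p.x k‖ * (((q.C1 + q.c) / q.n) ^ k * ρ) ≤ q.c / q.n * (((q.C1 + q.c) / q.n) ^ k * ρ) :=
      mul_le_mul_of_nonneg_right h3 h5
    calc q.C1 / q.n * (((q.C1 + q.c) / q.n) ^ k * ρ) + ‖p.x k‖ * (((q.C1 + q.c) / q.n) ^ k * ρ)
        ≤ q.C1 / q.n * (((q.C1 + q.c) / q.n) ^ k * ρ) +
          q.c / q.n * (((q.C1 + q.c) / q.n) ^ k * ρ) := by linarith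
      _ = ((q.C1 + q.c) / q.n) ^ (k + 1) * ρ := by rw [pow_succ]; ring

/-- (c) tail coefficients. -/
theorem bet_tail (hvt : 1 ≤ q.vt) {l l' : ℕ} (hl : l ≤ p.m) (hl' : l' ≤ p.m) :
    ‖(s.next p).bet (s.D + l) (s.D + l')‖ ≤
      q.G * (q.C1 + q.c) ^ s.D * (q.τ⁻¹) ^ 2 * q.vt ^ s.D * ((q.n : ℝ) ^ s.D / q.vt ^ p.m) := by
  have hn := q.n_pos
  have hD := s.hD
  have hG := q.G_pos
  have hC1 := q.C1_pos
  have hC0 := q.C0_pos
  have hτ := q.hτ
  have hθ := q.θ_pos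
  have hc := q.hc
  have hvt0 : 0 < q.vt := lt_of_lt_of_le one_pos hvt
  have h0 : (s.next p).bet (s.D + l) (s.D + l') =
      (p.η * p.ε ^ l)⁻¹ * b.f 0 ((s.K1 p ^ l) (aeval (s.K1 p) (NN p s.D) (b.e (s.D + l')))) := by
    change b.f 0 (aeval (s.K1 p) (s.E1 p (s.D + l)) (b.e (s.D + l'))) = _
    rw [s.K1_E1_apply, map_smul, smul_eq_mul]
  rw [h0]
  rcases Nat.lt_or_ge p.m (l + l' + s.D) with h | h
  · have h1 : InB q.cc q.w (s.D + p.m + 1) ((q.τ * q.θ ^ l')⁻¹) (b.e (s.D + l')) := by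
      have := InB.base (c := q.cc) (w := q.w) (N := s.D + p.m + 1) (i := s.D + l') (by omega)
      rw [q.cc_ge l', q.w_ge l'] at this
      exact this
    have h2 := q.f0_of_InB (q.K1_pow_InB (q.NN_InB h1 le_rfl) l)
    rw [norm_mul, norm_inv, norm_mul, norm_pow, q.hη, q.hε]
    have hC : (1 + q.c) = q.C0 := rfl
    rw [hC]
    have h3 : (q.θ ^ l')⁻¹ ≤ (q.vt ^ l')⁻¹ := by
      refine inv_anti₀ (by positivity) (pow_le_pow_left₀ hvt0.le ?_ l')
      unfold vt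
      exact div_le_self hθ.le (one_le_pow₀ q.C0_ge)
    have h4 : (q.vt ^ l)⁻¹ * (q.vt ^ l')⁻¹ ≤ q.vt ^ s.D / q.vt ^ p.m := by
      rw [← mul_inv, ← pow_add, inv_eq_one_div, div_le_div_iff₀ (by positivity) (by positivity),
        one_mul, ← pow_add]
      exact pow_le_pow_right₀ hvt (by omega)
    have h5 : (q.τ / (q.n : ℝ) ^ s.D * (q.C0 * q.θ / q.n) ^ l)⁻¹ * (q.G * (q.n : ℝ) ^ s.D *
        ((q.C1 / q.n) ^ l * (((q.C1 + q.c) / q.n) ^ s.D * (q.τ * q.θ ^ l')⁻¹))) =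
        q.G * (q.C1 + q.c) ^ s.D * (q.τ⁻¹) ^ 2 * (q.n : ℝ) ^ s.D * ((q.vt ^ l)⁻¹ * (q.θ ^ l')⁻¹) := by
      unfold vt C1
      rw [pow_succ q.C0 s.D, div_pow, div_pow, div_pow, div_pow, mul_pow, mul_pow]
      field_simp
    calc (q.τ / (q.n : ℝ) ^ s.D * (q.C0 * q.θ / q.n) ^ l)⁻¹ *
          ‖b.f 0 ((s.K1 p ^ l) (aeval (s.K1 p) (NN p s.D) (b.e (s.D + l'))))‖
        ≤ (q.τ / (q.n : ℝ) ^ s.D * (q.C0 * q.θ / q.n) ^ l)⁻¹ * (q.G * (q.n : ℝ) ^ s.D *
          ((q.C1 / q.n) ^ l * (((q.C1 + q.c) / q.n) ^ s.D * (q.τ * q.θ ^ l')⁻¹))) :=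
          mul_le_mul_of_nonneg_left h2 (by positivity)
      _ = q.G * (q.C1 + q.c) ^ s.D * (q.τ⁻¹) ^ 2 * (q.n : ℝ) ^ s.D * ((q.vt ^ l)⁻¹ * (q.θ ^ l')⁻¹) := h5
      _ ≤ q.G * (q.C1 + q.c) ^ s.D * (q.τ⁻¹) ^ 2 * (q.n : ℝ) ^ s.D * (q.vt ^ s.D / q.vt ^ p.m) := by
          refine mul_le_mul_of_nonneg_left ?_ (by positivity)
          exact (mul_le_mul_of_nonneg_left h3 (by positivity)).trans h4
      _ = _ := by ring
  · have h1 : b.f 0 ((s.K1 p ^ l) (aeval (s.K1 p) (NN p s.D) (b.e (s.D + l')))) = 0 := by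
      have h2 : (s.K1 p ^ l) (aeval (s.K1 p) (NN p s.D) (b.e (s.D + l'))) =
          aeval (s.K1 p) (Polynomial.X ^ l * NN p s.D) (b.e (s.D + l')) := by
        rw [aeval_mul_apply, map_pow, aeval_X]
      rw [h2, aeval_apply_sum _ _ _ (l + s.D + 1) ?_, map_sum]
      · refine Finset.sum_eq_zero fun k hk => ?_
        have := Finset.mem_range.1 hk
        rw [map_smul, s.K1_pow_e p (by omega), map_smul, St.f_e (by omega), smul_zero, smul_zero]
      · refine lt_of_le_of_lt natDegree_mul_le ?_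
        rw [natDegree_X_pow, NN_natDegree]
        omega
    rw [h1, mul_zero, norm_zero]
    positivity

end Sc

theorem St.bet_symm (s : St b) {i j : ℕ} (hi : i < s.D) (hj : j < s.D) : s.bet i j = s.bet j i := by
  have h1 : aeval s.K (s.E i) (b.e j) = aeval s.K (s.E j) (b.e i) := by
    rw [← s.hE j hj, aeval_comm, s.hE i hi]
  unfold St.bet
  rw [h1]

/-- The old part of the form, as a function of the operator. -/
noncomputable def St.old (s : St b) (K' : X →L[ℂ] X) : ℝ :=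
  ∑ x ∈ range s.D ×ˢ range s.D, ‖b.f 0 (aeval K' (s.E x.1) (b.e x.2)) - s.bet x.1 x.2‖ *
    2 ^ (x.1 + x.2)

theorem St.B_prod (s : St b) (u v : X) : s.B u v = ∑ x ∈ range s.D ×ˢ range s.D,
    s.bet x.1 x.2 * (b.f x.1 u * b.f x.2 v) := by
  rw [St.B_apply, Finset.sum_product]

theorem norm_T_le (b : Bio X) (i j : ℕ) (u v : X) :
    ‖b.f i u * b.f j v‖ ≤ 2 ^ (i + j) * (‖u‖ * ‖v‖) := by
  rw [norm_mul, pow_add]
  have h1 : ‖b.f i u‖ ≤ 2 ^ i * ‖u‖ :=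
    ((b.f i).le_opNorm u).trans (mul_le_mul_of_nonneg_right (b.nf i) (norm_nonneg _))
  have h2 : ‖b.f j v‖ ≤ 2 ^ j * ‖v‖ :=
    ((b.f j).le_opNorm v).trans (mul_le_mul_of_nonneg_right (b.nf j) (norm_nonneg _))
  calc ‖b.f i u‖ * ‖b.f j v‖ ≤ (2 ^ i * ‖u‖) * (2 ^ j * ‖v‖) :=
        mul_le_mul h1 h2 (norm_nonneg _) (by positivity)
    _ = 2 ^ i * 2 ^ j * (‖u‖ * ‖v‖) := by ring

theorem St.B_sub_le (s : St b) (p : Par) (κ : ℝ)
    (hκ : ∀ x ∈ (range (s.D + p.m + 1) ×ˢ range (s.D + p.m + 1)) \ (range s.D ×ˢ range s.D),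
      ‖(s.next p).bet x.1 x.2‖ ≤ κ) (u v : X) :
    ‖(s.next p).B u v - s.B u v‖ ≤
      (s.old (s.K1 p) + (s.D + p.m + 1) ^ 2 * (4 ^ (s.D + p.m + 1) * κ)) * (‖u‖ * ‖v‖) := by
  classical
  have huv : 0 ≤ ‖u‖ * ‖v‖ := by positivity
  have hsub : range s.D ×ˢ range s.D ⊆ range (s.D + p.m + 1) ×ˢ range (s.D + p.m + 1) := by
    refine Finset.product_subset_product ?_ ?_ <;>
    · intro i hi
      have := Finset.mem_range.1 hi
      exact Finset.mem_range.2 (by omega)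
  have hA : ‖∑ x ∈ (range (s.D + p.m + 1) ×ˢ range (s.D + p.m + 1)) \ (range s.D ×ˢ range s.D),
        (s.next p).bet x.1 x.2 * (b.f x.1 u * b.f x.2 v)‖ ≤
      (s.D + p.m + 1) ^ 2 * (4 ^ (s.D + p.m + 1) * κ) * (‖u‖ * ‖v‖) := by
    have h2 : ∀ x ∈ (range (s.D + p.m + 1) ×ˢ range (s.D + p.m + 1)) \ (range s.D ×ˢ range s.D),
        ‖(s.next p).bet x.1 x.2 * (b.f x.1 u * b.f x.2 v)‖ ≤
          4 ^ (s.D + p.m + 1) * κ * (‖u‖ * ‖v‖) := by
      intro x hx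
      have h3 := hκ x hx
      have hκ0 : 0 ≤ κ := (norm_nonneg _).trans h3
      have hx' := (Finset.mem_sdiff.1 hx).1
      have hx1 := Finset.mem_range.1 (Finset.mem_product.1 hx').1
      have hx2 := Finset.mem_range.1 (Finset.mem_product.1 hx').2
      rw [norm_mul]
      have h4 : (2 : ℝ) ^ (x.1 + x.2) ≤ 4 ^ (s.D + p.m + 1) := by
        have : (4 : ℝ) = 2 ^ 2 := by norm_num
        rw [this, ← pow_mul]
        exact pow_le_pow_right₀ (by norm_num) (by omega)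
      have h5 : ‖b.f x.1 u * b.f x.2 v‖ ≤ 4 ^ (s.D + p.m + 1) * (‖u‖ * ‖v‖) :=
        (norm_T_le b _ _ u v).trans (mul_le_mul_of_nonneg_right h4 huv)
      calc ‖(s.next p).bet x.1 x.2‖ * ‖b.f x.1 u * b.f x.2 v‖
          ≤ κ * (4 ^ (s.D + p.m + 1) * (‖u‖ * ‖v‖)) := mul_le_mul h3 h5 (norm_nonneg _) hκ0
        _ = 4 ^ (s.D + p.m + 1) * κ * (‖u‖ * ‖v‖) := by ring
    refine (norm_sum_le _ _).trans ((Finset.sum_le_card_nsmul _ _ _ h2).trans ?_)
    rw [nsmul_eq_mul, mul_assoc ((_ : ℝ) ^ 2)]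
    by_cases hne : ((range (s.D + p.m + 1) ×ˢ range (s.D + p.m + 1)) \ (range s.D ×ˢ range s.D)).Nonempty
    · obtain ⟨x, hx⟩ := hne
      have hκ0 : 0 ≤ κ := (norm_nonneg _).trans (hκ x hx)
      refine mul_le_mul_of_nonneg_right ?_ (by positivity)
      have h5 : ((range (s.D + p.m + 1) ×ˢ range (s.D + p.m + 1)) \ (range s.D ×ˢ range s.D)).card ≤
          (s.D + p.m + 1) * (s.D + p.m + 1) := by
        refine (Finset.card_le_card Finset.sdiff_subset).trans ?_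
        rw [Finset.card_product, Finset.card_range]
      calc (((range (s.D + p.m + 1) ×ˢ range (s.D + p.m + 1)) \ (range s.D ×ˢ range s.D)).card : ℝ)
          ≤ (((s.D + p.m + 1) * (s.D + p.m + 1) : ℕ) : ℝ) := by exact_mod_cast h5
        _ = ((s.D : ℝ) + p.m + 1) ^ 2 := by push_cast; ring
    · exfalso
      apply hne
      refine ⟨(0, s.D + p.m), ?_⟩
      rw [Finset.mem_sdiff, Finset.mem_product, Finset.mem_product]
      simp
  have hB : ‖∑ x ∈ range s.D ×ˢ range s.D,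
        ((s.next p).bet x.1 x.2 - s.bet x.1 x.2) * (b.f x.1 u * b.f x.2 v)‖ ≤
      s.old (s.K1 p) * (‖u‖ * ‖v‖) := by
    refine (norm_sum_le _ _).trans ?_
    unfold St.old
    rw [Finset.sum_mul]
    refine Finset.sum_le_sum fun x hx => ?_
    have hx1 := Finset.mem_range.1 (Finset.mem_product.1 hx).1
    have h2 : (s.next p).bet x.1 x.2 = b.f 0 (aeval (s.K1 p) (s.E x.1) (b.e x.2)) := by
      change b.f 0 (aeval (s.K1 p) (s.E1 p x.1) (b.e x.2)) = _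
      rw [s.E1_of_lt p hx1]
    rw [norm_mul, h2, mul_assoc]
    exact mul_le_mul_of_nonneg_left (norm_T_le b _ _ u v) (norm_nonneg _)
  have h1 : (s.next p).B u v - s.B u v =
      (∑ x ∈ (range (s.D + p.m + 1) ×ˢ range (s.D + p.m + 1)) \ (range s.D ×ˢ range s.D),
        (s.next p).bet x.1 x.2 * (b.f x.1 u * b.f x.2 v)) +
      ∑ x ∈ range s.D ×ˢ range s.D,
        ((s.next p).bet x.1 x.2 - s.bet x.1 x.2) * (b.f x.1 u * b.f x.2 v) := by
    have h3 : ∑ x ∈ range s.D ×ˢ range s.D,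
        ((s.next p).bet x.1 x.2 - s.bet x.1 x.2) * (b.f x.1 u * b.f x.2 v) =
        ∑ x ∈ range s.D ×ˢ range s.D, (s.next p).bet x.1 x.2 * (b.f x.1 u * b.f x.2 v) -
        ∑ x ∈ range s.D ×ˢ range s.D, s.bet x.1 x.2 * (b.f x.1 u * b.f x.2 v) := by
      rw [← Finset.sum_sub_distrib]
      exact Finset.sum_congr rfl fun x _ => by rw [sub_mul]
    rw [h3, St.B_prod, St.B_prod]
    change (∑ x ∈ range (s.D + p.m + 1) ×ˢ range (s.D + p.m + 1),
      (s.next p).bet x.1 x.2 * (b.f x.1 u * b.f x.2 v)) - _ = _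
    rw [← Finset.sum_sdiff hsub]
    exact add_sub_assoc _ _ _
  rw [h1]
  refine (norm_add_le _ _).trans ((add_le_add hA hB).trans (le_of_eq ?_))
  ring

end Pool.Agent.MP_7da968
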