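import Mathlib

set_option autoImplicit false

open Filter Topology Polynomial

namespace Pool.Agent.MP_7da968

/-- Small solutions of `w = (a + f w) / n`. -/
theorem small_fixed (f : ℂ → ℂ) (M : NNReal) (r : ℝ) (hr : 0 < r)
    (hf : LipschitzOnWith M f (Metric.closedBall 0 r)) (a : ℂ) :
    ∃ N : ℕ, ∀ n : ℕ, N ≤ n → ∃ w : ℂ, ‖w‖ ≤ r ∧ ‖w‖ ≤ 2 * (‖a‖ + ‖f 0‖) / n ∧ (n : ℂ) * w = a + f w := by
  obtain ⟨N, hN⟩ := exists_nat_gt (max (2 * (M : ℝ)) ((‖a‖ + ‖f 0‖ + M * r) / r))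
  refine ⟨N, fun n hn => ?_⟩
  have hnN : (N : ℝ) ≤ n := by exact_mod_cast hn
  have h1 : 2 * (M : ℝ) < n := lt_of_lt_of_le (lt_of_le_of_lt (le_max_left _ _) hN) hnN
  have h2 : (‖a‖ + ‖f 0‖ + M * r) / r < n :=
    lt_of_lt_of_le (lt_of_le_of_lt (le_max_right _ _) hN) hnN
  have hM0 : (0 : ℝ) ≤ M := M.2
  have hn0 : (0 : ℝ) < n := by linarith
  have hnc : (n : ℂ) ≠ 0 := by
    have : (n : ℝ) ≠ 0 := hn0.ne'
    exact_mod_cast this
  have h3 : ‖a‖ + ‖f 0‖ + M * r < n * r := by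
    rw [div_lt_iff₀ hr] at h2
    exact h2
  set F : ℂ → ℂ := fun w => (a + f w) / n with hF
  have h0 : (0 : ℂ) ∈ Metric.closedBall (0 : ℂ) r := Metric.mem_closedBall_self hr.le
  have hfb : ∀ w ∈ Metric.closedBall (0 : ℂ) r, ‖f w‖ ≤ ‖f 0‖ + M * ‖w‖ := by
    intro w hw
    have h4 := hf.dist_le_mul w hw 0 h0
    rw [dist_eq_norm, dist_zero_right] at h4
    have h5 := norm_le_norm_add_norm_sub' (f w) (f 0)
    linarith
  have hFn : ∀ w, ‖F w‖ = ‖a + f w‖ / n := by
    intro w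
    simp only [hF]
    rw [norm_div, Complex.norm_natCast]
  have hmaps : Set.MapsTo F (Metric.closedBall 0 r) (Metric.closedBall 0 r) := by
    intro w hw
    rw [mem_closedBall_zero_iff, hFn, div_le_iff₀ hn0]
    have h4 := hfb w hw
    rw [mem_closedBall_zero_iff] at hw
    have h5 := norm_add_le a (f w)
    have h6 : (M : ℝ) * ‖w‖ ≤ M * r := mul_le_mul_of_nonneg_left hw hM0
    linarith
  have hlip : ContractingWith (1 / 2) (hmaps.restrict F _ _) := by
    refine ⟨by norm_num, ?_⟩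
    refine LipschitzWith.of_dist_le_mul fun x y => ?_
    rw [Subtype.dist_eq, Subtype.dist_eq]
    simp only [Set.MapsTo.val_restrict_apply, hF]
    rw [dist_eq_norm, ← sub_div, add_sub_add_left_eq_sub, norm_div, Complex.norm_natCast,
      div_le_iff₀ hn0]
    have h4 := hf.dist_le_mul x.1 x.2 y.1 y.2
    rw [dist_eq_norm] at h4
    have h5 : 0 ≤ dist (x : ℂ) y := dist_nonneg
    have h6 : (((1 / 2 : NNReal)) : ℝ) = 1 / 2 := by norm_num
    rw [h6]
    nlinarith
  obtain ⟨w, hw, hfix, -, -⟩ := hlip.exists_fixedPoint' (Metric.isClosed_closedBall.isComplete) hmaps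
    h0 (edist_ne_top _ _)
  have hfix' : (a + f w) / n = w := hfix
  refine ⟨w, mem_closedBall_zero_iff.1 hw, ?_, ?_⟩
  · have h4 := hfb w hw
    have h5 := norm_add_le a (f w)
    have h6 : ‖w‖ = ‖a + f w‖ / n := by
      rw [← hFn, hF]
      exact congrArg _ hfix'.symm
    rw [le_div_iff₀ hn0]
    rw [eq_div_iff hn0.ne'] at h6
    nlinarith [norm_nonneg w]
  · rw [div_eq_iff hnc] at hfix'
    rw [hfix']
    ring

/-- Distinct small solutions of `(1 + x)^n = P x`. -/
theorem roots_near_zero (P : ℂ[X]) (hP : P.eval 0 ≠ 0) (D : ℕ) :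
    ∃ c : ℝ, 0 < c ∧ ∃ N : ℕ, ∀ n : ℕ, N ≤ n → ∃ x : ℕ → ℂ, (∀ i < D, ‖x i‖ ≤ c / n) ∧
      (∀ i < D, (1 + x i) ^ n = P.eval (x i)) ∧ (∀ i < D, ∀ j < D, x i = x j → i = j) := by
  set q : ℂ → ℂ := fun w => P.eval (Complex.exp w - 1) / P.eval 0 with hq
  set f : ℂ → ℂ := fun w => Complex.log (q w) with hf
  have hq0 : q 0 = 1 := by
    simp only [hq]
    rw [Complex.exp_zero, sub_self, div_self hP]
  have hqan : AnalyticAt ℂ q 0 := by
    have h1 : AnalyticAt ℂ (fun w : ℂ => Complex.exp w - 1) 0 := by fun_prop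
    have h2 : AnalyticAt ℂ (fun w : ℂ => P.eval w) (Complex.exp 0 - 1) :=
      (P.differentiable.analyticAt _)
    have h3 : AnalyticAt ℂ (fun w : ℂ => P.eval (Complex.exp w - 1)) 0 :=
      AnalyticAt.comp (g := fun w : ℂ => P.eval w) (f := fun w : ℂ => Complex.exp w - 1) h2 h1
    exact h3.div_const
  have hfan : AnalyticAt ℂ f 0 := hqan.clog (by rw [hq0]; exact Complex.one_mem_slitPlane)
  obtain ⟨M, s, hs, hlip⟩ := hfan.hasStrictFDerivAt.exists_lipschitzOnWith
  have hqne : ∀ᶠ w in 𝓝 (0 : ℂ), q w ≠ 0 := hqan.continuousAt.eventually_ne (by rw [hq0]; exact one_ne_zero)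
  obtain ⟨r0, hr0, hball⟩ := Metric.nhds_basis_closedBall.mem_iff.1 (inter_mem hs hqne)
  set r := min r0 1 with hr
  have hrpos : 0 < r := lt_min hr0 one_pos
  have hlip' : LipschitzOnWith M f (Metric.closedBall 0 r) :=
    hlip.mono fun w hw => (hball (Metric.closedBall_subset_closedBall (min_le_left _ _) hw)).1
  have hqne' : ∀ w : ℂ, ‖w‖ ≤ r → q w ≠ 0 := fun w hw =>
    (hball (Metric.closedBall_subset_closedBall (min_le_left _ _) (mem_closedBall_zero_iff.2 hw))).2
  set lam : ℕ → ℂ := fun j => Complex.log (P.eval 0) + j * (2 * Real.pi * Complex.I) with hlam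
  have hsol := fun j => small_fixed f M r hrpos hlip' (lam j)
  choose N0 hN0 using hsol
  set c : ℝ := 1 + ∑ j ∈ Finset.range D, 4 * (‖lam j‖ + ‖f 0‖) with hc
  have hsum0 : 0 ≤ ∑ j ∈ Finset.range D, 4 * (‖lam j‖ + ‖f 0‖) :=
    Finset.sum_nonneg fun j _ => by positivity
  refine ⟨c, by positivity, ∑ j ∈ Finset.range D, N0 j, fun n hn => ?_⟩
  have hnj : ∀ j < D, N0 j ≤ n := fun j hj =>
    (Finset.single_le_sum (f := N0) (fun _ _ => Nat.zero_le _) (Finset.mem_range.2 hj)).trans hn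
  have hex : ∀ j : ℕ, ∃ w : ℂ, j < D → ‖w‖ ≤ r ∧ ‖w‖ ≤ 2 * (‖lam j‖ + ‖f 0‖) / n ∧
      (n : ℂ) * w = lam j + f w := by
    intro j
    by_cases hj : j < D
    · obtain ⟨w, hw⟩ := hN0 j n (hnj j hj)
      exact ⟨w, fun _ => hw⟩
    · exact ⟨0, fun h => absurd h hj⟩
  choose w hw using hex
  refine ⟨fun j => Complex.exp (w j) - 1, ?_, ?_, ?_⟩
  · intro i hi
    obtain ⟨h1, h2, h3⟩ := hw i hi
    have h4 : ‖w i‖ ≤ 1 := h1.trans (min_le_right _ _)
    have h5 : ‖Complex.exp (w i) - 1‖ ≤ 2 * ‖w i‖ := Complex.norm_exp_sub_one_le h4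
    have h6 : 2 * ‖w i‖ ≤ 4 * (‖lam i‖ + ‖f 0‖) / n := by
      calc 2 * ‖w i‖ ≤ 2 * (2 * (‖lam i‖ + ‖f 0‖) / n) := by linarith
        _ = 4 * (‖lam i‖ + ‖f 0‖) / n := by ring
    refine h5.trans (h6.trans ?_)
    have h7 : 4 * (‖lam i‖ + ‖f 0‖) ≤ c := by
      have := Finset.single_le_sum (f := fun j => 4 * (‖lam j‖ + ‖f 0‖))
        (fun j _ => by positivity) (Finset.mem_range.2 hi)
      simp only [hc]
      linarith
    exact div_le_div_of_nonneg_right h7 (Nat.cast_nonneg n)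
  · intro i hi
    obtain ⟨h1, h2, h3⟩ := hw i hi
    have hqi := hqne' (w i) h1
    have h4 : 1 + (Complex.exp (w i) - 1) = Complex.exp (w i) := by ring
    dsimp only
    rw [h4, ← Complex.exp_nat_mul, h3, Complex.exp_add]
    have h5 : Complex.exp (lam i) = P.eval 0 := by
      simp only [hlam]
      rw [Complex.exp_add, Complex.exp_log hP, Complex.exp_nat_mul_two_pi_mul_I, mul_one]
    have h6 : Complex.exp (f (w i)) = q (w i) := Complex.exp_log hqi
    rw [h5, h6]
    simp only [hq]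
    field_simp
  · intro i hi j hj hij
    obtain ⟨h1, h2, h3⟩ := hw i hi
    obtain ⟨h1', h2', h3'⟩ := hw j hj
    have h4 : Complex.exp (w i) = Complex.exp (w j) := by
      dsimp only at hij
      linear_combination hij
    obtain ⟨m, hm⟩ := Complex.exp_eq_exp_iff_exists_int.1 h4
    have hm0 : m = 0 := by
      by_contra hm0
      have h5 : ‖w i - w j‖ ≤ 2 := by
        refine (norm_sub_le _ _).trans ?_
        have := h1.trans (min_le_right _ _)
        have := h1'.trans (min_le_right _ _)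
        linarith
      have h6 : w i - w j = m * (2 * Real.pi * Complex.I) := by rw [hm]; ring
      rw [h6] at h5
      have h7 : ‖(m : ℂ) * (2 * Real.pi * Complex.I)‖ = |(m : ℝ)| * (2 * Real.pi) := by
        rw [norm_mul, norm_mul, norm_mul, Complex.norm_I, Complex.norm_intCast, mul_one,
          Complex.norm_ofNat, Complex.norm_real, Real.norm_of_nonneg Real.pi_pos.le]
      rw [h7] at h5
      have h8 : (1 : ℝ) ≤ |(m : ℝ)| := by
        have : (1 : ℤ) ≤ |m| := Int.one_le_abs hm0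
        exact_mod_cast this
      have h9 := Real.pi_gt_three
      nlinarith
    rw [hm0] at hm
    have h5 : w i = w j := by
      rw [hm]; simp
    rw [h5] at h3
    have h6 : lam i = lam j := by
      have : lam i + f (w j) = lam j + f (w j) := h3.symm.trans h3'
      exact add_right_cancel this
    simp only [hlam] at h6
    have h7 : ((i : ℂ) - j) * (2 * Real.pi * Complex.I) = 0 := by linear_combination h6
    rcases mul_eq_zero.1 h7 with h8 | h8
    · have : (i : ℂ) = j := by linear_combination h8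
      exact_mod_cast this
    · exfalso
      exact Complex.two_pi_I_ne_zero h8

end Pool.Agent.MP_7da968
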