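import Mathlib
import Pool.Agent.Lib.MP_7da968_an.Close
import Pool.Agent.Lib.MP_7da968_an.Roots

set_option autoImplicit false

open Filter Topology Polynomial Finset

namespace Pool.Agent.MP_7da968

variable {X : Type*} [NormedAddCommGroup X] [NormedSpace ℂ X] {b : Bio X}

/-- Constant in the operator estimate. -/
noncomputable def A1 (s : St b) (c τ θ : ℝ) : ℝ :=
  ‖s.h⁻¹‖ * 2 ^ s.D * (τ + s.D * c * (‖s.K‖ + 1) ^ s.D) + (1 + c) * θ * 2 ^ s.D +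
    2 ^ s.D * ((1 + c) ^ (s.D + 1) * ((‖s.K‖ + 1) ^ s.D / τ + 1))

/-- Constant in the form estimate. -/
noncomputable def A2 (s : St b) (c τ θ : ℝ) : ℝ :=
  (∑ i ∈ range s.D, ∑ k ∈ range s.D, ‖(s.E i).coeff k‖) *
    ((‖s.K‖ + 1) ^ s.D * ((1 + c) ^ (s.D + 1)) ^ s.D * τ⁻¹ * θ ^ s.D) +
  (‖s.K‖ + 1) ^ s.D * ((1 + c) ^ (s.D + 1) + c) ^ s.D * (τ⁻¹) ^ 2 * (4 ^ (s.D + 4)) ^ s.D

/-- Constant in the hitting estimate. -/
noncomputable def A3 (s : St b) (τ : ℝ) : ℝ := (‖s.K‖ + 1) ^ s.D / τ + 1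

theorem A2_nonneg (s : St b) {c τ θ : ℝ} (hc : 0 < c) (hτ : 0 < τ) (hθ : 0 < θ) :
    0 ≤ A2 s c τ θ := by
  unfold A2
  have h1 : 0 ≤ ∑ i ∈ range s.D, ∑ k ∈ range s.D, ‖(s.E i).coeff k‖ :=
    Finset.sum_nonneg fun i _ => Finset.sum_nonneg fun k _ => norm_nonneg _
  have h2 := norm_nonneg s.K
  positivity

namespace Sc

variable {s : St b} {p : Par} (q : Sc s p)

theorem npow_div (hn : q.n = 4 ^ p.m) {t : ℝ} (ht : 4 ^ (s.D + 4) ≤ t) :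
    (q.n : ℝ) ^ s.D / t ^ p.m ≤ (1 / 256) ^ p.m := by
  have h1 : (q.n : ℝ) ^ s.D = (4 ^ s.D) ^ p.m := by
    rw [hn]
    push_cast
    rw [← pow_mul, ← pow_mul, mul_comm]
  have ht0 : 0 < t := lt_of_lt_of_le (by positivity) ht
  rw [h1, ← div_pow]
  refine pow_le_pow_left₀ (by positivity) ?_ _
  rw [div_le_div_iff₀ ht0 (by norm_num), one_mul]
  calc (4 : ℝ) ^ s.D * 256 = 4 ^ (s.D + 4) := by rw [pow_add]; norm_num
    _ ≤ t := ht

theorem inv_n_le (hn : q.n = 4 ^ p.m) : ((q.n : ℝ))⁻¹ * 2 ^ p.m = (1 / 2) ^ p.m := by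
  rw [hn]
  push_cast
  rw [← inv_pow, ← mul_pow]
  norm_num

theorem inv_n_le' (hn : q.n = 4 ^ p.m) : ((q.n : ℝ))⁻¹ ≤ (1 / 2) ^ p.m := by
  rw [← q.inv_n_le hn]
  have := q.n_pos
  exact le_mul_of_one_le_right (by positivity) (one_le_pow₀ (by norm_num))

theorem bound1 (hn : q.n = 4 ^ p.m) (hθ : 4 ^ (s.D + 4) ≤ q.θ) :
    ‖s.K1 p - s.K‖ ≤ A1 s q.c q.τ q.θ * (1 / 2) ^ p.m := by
  have hD := s.hD
  have hn0 := q.n_pos
  have hc := q.hc
  have hτ := q.hτ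
  have hθ0 := q.θ_pos
  have hG := q.G_pos
  have hC1 := q.C1_pos
  have h1 := q.inv_n_le hn
  have h1' := q.inv_n_le' hn
  refine q.norm_K1_sub_le.trans ?_
  have e1 : q.τ / (q.n : ℝ) ^ s.D ≤ q.τ * (1 / 2) ^ p.m := by
    rw [div_eq_mul_inv]
    refine mul_le_mul_of_nonneg_left ?_ hτ.le
    refine le_trans ?_ h1'
    exact inv_anti₀ hn0 (le_self_pow₀ q.one_le_n (by omega))
  have e2 : (s.D : ℝ) * (q.c / q.n) * q.G ≤ s.D * q.c * q.G * (1 / 2) ^ p.m := by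
    rw [div_eq_mul_inv]
    have : (s.D : ℝ) * (q.c * (q.n : ℝ)⁻¹) * q.G = s.D * q.c * q.G * (q.n : ℝ)⁻¹ := by ring
    rw [this]
    exact mul_le_mul_of_nonneg_left h1' (by positivity)
  have e3 : q.C0 * q.θ / q.n * 2 ^ (s.D + p.m) = (1 + q.c) * q.θ * 2 ^ s.D * (1 / 2) ^ p.m := by
    rw [← h1, pow_add, div_eq_mul_inv]
    unfold C0
    ring
  have e4 : 2 ^ (s.D + p.m) * (q.MM * (q.C1 / q.n * (q.τ * q.θ ^ p.m)⁻¹)) ≤
      2 ^ s.D * (q.C1 * (q.G / q.τ + 1)) * (1 / 2) ^ p.m := by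
    have h2 : 2 ^ (s.D + p.m) * (q.MM * (q.C1 / q.n * (q.τ * q.θ ^ p.m)⁻¹)) =
        2 ^ s.D * (q.C1 * (q.G / q.τ * ((q.n : ℝ) ^ s.D / q.θ ^ p.m) + 1)) *
          ((q.n : ℝ)⁻¹ * 2 ^ p.m) := by
      unfold MM
      rw [pow_add]
      field_simp
    rw [h2, h1]
    refine mul_le_mul_of_nonneg_right ?_ (by positivity)
    refine mul_le_mul_of_nonneg_left ?_ (by positivity)
    refine mul_le_mul_of_nonneg_left ?_ hC1.le
    have h3 := q.npow_div hn hθ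
    have h4 : (1 / 256 : ℝ) ^ p.m ≤ 1 := pow_le_one₀ (by norm_num) (by norm_num)
    have h5 : q.G / q.τ * ((q.n : ℝ) ^ s.D / q.θ ^ p.m) ≤ q.G / q.τ * 1 :=
      mul_le_mul_of_nonneg_left (h3.trans h4) (by positivity)
    linarith
  have hGe : (‖s.K‖ + 1) ^ s.D = q.G := rfl
  have hCe : (1 + q.c) ^ (s.D + 1) = q.C1 := rfl
  have e5 : ‖s.h⁻¹‖ * 2 ^ s.D * (q.τ / (q.n : ℝ) ^ s.D + s.D * (q.c / q.n) * q.G) ≤
      ‖s.h⁻¹‖ * 2 ^ s.D * (q.τ * (1 / 2) ^ p.m + s.D * q.c * q.G * (1 / 2) ^ p.m) :=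
    mul_le_mul_of_nonneg_left (add_le_add e1 e2) (by positivity)
  unfold A1
  rw [hGe, hCe]
  refine (add_le_add (add_le_add e5 e3.le) e4).trans (le_of_eq ?_)
  ring

theorem bound2 (hn : q.n = 4 ^ p.m) (hθ : q.θ = q.C0 ^ s.D * 4 ^ (s.D + 4)) (u v : X) :
    ‖(s.next p).B u v - s.B u v‖ ≤
      (s.old (s.K1 p) + A2 s q.c q.τ q.θ * 16 ^ (s.D + 1) * (1 / 2) ^ p.m) * (‖u‖ * ‖v‖) := by
  have hD := s.hD
  have hn0 := q.n_pos
  have hc := q.hc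
  have hτ := q.hτ
  have hθ0 := q.θ_pos
  have hG := q.G_pos
  have hC1 := q.C1_pos
  have hC0 := q.C0_pos
  have hC0' : 1 ≤ q.C0 ^ s.D := one_le_pow₀ q.C0_ge
  have hvt : q.vt = 4 ^ (s.D + 4) := by
    unfold vt
    rw [hθ]
    field_simp
  have hθ' : 4 ^ (s.D + 4) ≤ q.θ := by
    rw [hθ]
    exact le_mul_of_one_le_left (by positivity) hC0'
  have hvt1 : 1 ≤ q.vt := by
    rw [hvt]
    exact one_le_pow₀ (by norm_num)
  have hA2 := A2_nonneg s hc hτ hθ0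
  have hGe : (‖s.K‖ + 1) ^ s.D = q.G := rfl
  have hCe : (1 + q.c) ^ (s.D + 1) = q.C1 := rfl
  set S := ∑ i ∈ range s.D, ∑ k ∈ range s.D, ‖(s.E i).coeff k‖ with hS
  have hS0 : 0 ≤ S := Finset.sum_nonneg fun i _ => Finset.sum_nonneg fun k _ => norm_nonneg _
  have hcr : ∀ i l, i < s.D → l ≤ p.m → ‖(s.next p).bet i (s.D + l)‖ ≤
      A2 s q.c q.τ q.θ * (1 / 256) ^ p.m := by
    intro i l hi hl
    refine (q.bet_cross hi hl).trans ?_
    have h1 : ∑ k ∈ range s.D, ‖(s.E i).coeff k‖ ≤ S := by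
      rw [hS]
      exact Finset.single_le_sum (f := fun i => ∑ k ∈ range s.D, ‖(s.E i).coeff k‖)
        (fun i _ => Finset.sum_nonneg fun k _ => norm_nonneg _) (Finset.mem_range.2 hi)
    have h2 := q.npow_div hn hθ'
    have h3 : (∑ k ∈ range s.D, ‖(s.E i).coeff k‖) *
        (q.G * q.C1 ^ s.D * q.τ⁻¹ * q.θ ^ s.D * ((q.n : ℝ) ^ s.D / q.θ ^ p.m)) ≤
        S * (q.G * q.C1 ^ s.D * q.τ⁻¹ * q.θ ^ s.D * (1 / 256) ^ p.m) := by
      refine mul_le_mul h1 ?_ (by positivity) hS0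
      exact mul_le_mul_of_nonneg_left h2 (by positivity)
    refine h3.trans ?_
    unfold A2
    rw [hGe, hCe, ← hS, add_mul]
    have h4 : 0 ≤ q.G * (q.C1 + q.c) ^ s.D * (q.τ⁻¹) ^ 2 * (4 ^ (s.D + 4)) ^ s.D * (1 / 256) ^ p.m := by
      positivity
    calc S * (q.G * q.C1 ^ s.D * q.τ⁻¹ * q.θ ^ s.D * (1 / 256) ^ p.m)
        = S * (q.G * q.C1 ^ s.D * q.τ⁻¹ * q.θ ^ s.D) * (1 / 256) ^ p.m := by ring
      _ ≤ _ := le_add_of_nonneg_right h4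
  have hta : ∀ l l', l ≤ p.m → l' ≤ p.m → ‖(s.next p).bet (s.D + l) (s.D + l')‖ ≤
      A2 s q.c q.τ q.θ * (1 / 256) ^ p.m := by
    intro l l' hl hl'
    refine (q.bet_tail hvt1 hl hl').trans ?_
    have h2 := q.npow_div hn hvt.ge
    have h3 : q.G * (q.C1 + q.c) ^ s.D * (q.τ⁻¹) ^ 2 * q.vt ^ s.D * ((q.n : ℝ) ^ s.D / q.vt ^ p.m) ≤
        q.G * (q.C1 + q.c) ^ s.D * (q.τ⁻¹) ^ 2 * q.vt ^ s.D * (1 / 256) ^ p.m := by
      refine mul_le_mul_of_nonneg_left h2 (by positivity)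
    refine h3.trans ?_
    unfold A2
    rw [hGe, hCe, ← hS, add_mul, hvt]
    have h4 : 0 ≤ S * (q.G * q.C1 ^ s.D * q.τ⁻¹ * q.θ ^ s.D) * (1 / 256) ^ p.m := by
      positivity
    exact le_add_of_nonneg_left h4
  refine (s.B_sub_le p (A2 s q.c q.τ q.θ * (1 / 256) ^ p.m) ?_ u v).trans ?_
  · rintro ⟨i, j⟩ hx
    rw [Finset.mem_sdiff, Finset.mem_product, Finset.mem_product] at hx
    simp only [Finset.mem_range] at hx
    obtain ⟨⟨hi, hj⟩, hn'⟩ := hx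
    rcases lt_or_ge i s.D with h | h
    · have hj' : s.D ≤ j := by
        by_contra h'
        exact hn' ⟨h, by omega⟩
      obtain ⟨l, rfl⟩ := Nat.exists_eq_add_of_le hj'
      exact hcr i l h (by omega)
    · obtain ⟨l, rfl⟩ := Nat.exists_eq_add_of_le h
      rcases lt_or_ge j s.D with h' | h'
      · have hsy : (s.next p).bet (s.D + l) j = (s.next p).bet j (s.D + l) :=
          (s.next p).bet_symm (i := s.D + l) (j := j) hi hj
        change ‖(s.next p).bet (s.D + l) j‖ ≤ _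
        rw [hsy]
        exact hcr j l h' (by omega)
      · obtain ⟨l', rfl⟩ := Nat.exists_eq_add_of_le h'
        exact hta l l' (by omega) (by omega)
  · refine mul_le_mul_of_nonneg_right ?_ (by positivity)
    refine add_le_add le_rfl ?_
    have h1 : ((s.D : ℝ) + p.m + 1) ^ 2 ≤ 4 ^ (s.D + p.m + 1) := by
      have h2 : ((s.D : ℝ) + p.m + 1) ≤ 2 ^ (s.D + p.m + 1) := by
        have h3 : s.D + p.m + 1 ≤ 2 ^ (s.D + p.m + 1) := Nat.lt_two_pow_self.le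
        exact_mod_cast h3
      calc ((s.D : ℝ) + p.m + 1) ^ 2 ≤ (2 ^ (s.D + p.m + 1)) ^ 2 :=
            pow_le_pow_left₀ (by positivity) h2 2
        _ = 4 ^ (s.D + p.m + 1) := by rw [← pow_mul, mul_comm, pow_mul]; norm_num
    calc ((s.D : ℝ) + p.m + 1) ^ 2 * (4 ^ (s.D + p.m + 1) * (A2 s q.c q.τ q.θ * (1 / 256) ^ p.m))
        ≤ 4 ^ (s.D + p.m + 1) * (4 ^ (s.D + p.m + 1) * (A2 s q.c q.τ q.θ * (1 / 256) ^ p.m)) :=
          mul_le_mul_of_nonneg_right h1 (by positivity)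
      _ = A2 s q.c q.τ q.θ * 16 ^ (s.D + 1) * (1 / 16) ^ p.m := by
          have h4 : (4 : ℝ) ^ (s.D + p.m + 1) = 4 ^ (s.D + 1) * 4 ^ p.m := by
            rw [← pow_add]; congr 1; omega
          have h5 : (16 : ℝ) ^ (s.D + 1) = 4 ^ (s.D + 1) * 4 ^ (s.D + 1) := by
            rw [← mul_pow]; norm_num
          have h6 : (1 / 16 : ℝ) ^ p.m = 4 ^ p.m * 4 ^ p.m * (1 / 256) ^ p.m := by
            rw [← mul_pow, ← mul_pow]; norm_num
          rw [h4, h5, h6]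
          ring
      _ ≤ A2 s q.c q.τ q.θ * 16 ^ (s.D + 1) * (1 / 2) ^ p.m := by
          refine mul_le_mul_of_nonneg_left ?_ (by positivity)
          exact pow_le_pow_left₀ (by norm_num) (by norm_num) _

theorem bound3 (hn : q.n = 4 ^ p.m) (P : ℂ[X]) (hP : P.natDegree < s.D)
    (hdvd : NN p s.D ∣ (1 + Polynomial.X) ^ q.n - P) :
    ‖((1 + s.K1 p) ^ q.n) (b.e 0) - aeval (s.K1 p) P (b.e 0)‖ ≤ q.τ * Real.exp (1 + q.c) *
      (Real.exp ((1 + q.c) * q.θ) + A3 s q.τ * (1 / 2) ^ p.m *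
        Real.exp ((1 + q.c) ^ (s.D + 1) * (2 * 4 ^ s.D * q.θ))) := by
  have hn0 := q.n_pos
  have hc := q.hc
  have hτ := q.hτ
  have hθ0 := q.θ_pos
  have hG := q.G_pos
  have hθ1 := q.hθ
  have h4 : (1 : ℝ) ≤ 4 ^ s.D := one_le_pow₀ (by norm_num)
  have hB : 1 ≤ 2 * 4 ^ s.D * q.θ := by nlinarith
  refine (q.hit P hP hdvd (2 * 4 ^ s.D * q.θ) hB).trans ?_
  refine mul_le_mul_of_nonneg_left ?_ (by positivity)
  refine add_le_add le_rfl ?_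
  refine mul_le_mul_of_nonneg_right ?_ (Real.exp_nonneg _)
  have h1 : (q.n : ℝ) ^ s.D = (4 ^ s.D) ^ p.m := by
    rw [hn]
    push_cast
    rw [← pow_mul, ← pow_mul, mul_comm]
  unfold MM A3
  have hGe : (‖s.K‖ + 1) ^ s.D = q.G := rfl
  rw [hGe, h1, mul_pow, mul_pow]
  have h2 : (q.G * (4 ^ s.D) ^ p.m + q.τ * q.θ ^ p.m) / q.τ / (2 ^ p.m * (4 ^ s.D) ^ p.m * q.θ ^ p.m) =
      (q.G / q.τ * (q.θ ^ p.m)⁻¹ + ((4 ^ s.D) ^ p.m)⁻¹) * (1 / 2) ^ p.m := by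
    rw [one_div, inv_pow]
    field_simp
  rw [h2]
  refine mul_le_mul_of_nonneg_right ?_ (by positivity)
  have h3 : (q.θ ^ p.m)⁻¹ ≤ 1 := inv_le_one_of_one_le₀ (one_le_pow₀ hθ1)
  have h5 : ((4 ^ s.D) ^ p.m : ℝ)⁻¹ ≤ 1 := inv_le_one_of_one_le₀ (one_le_pow₀ h4)
  have h6 : q.G / q.τ * (q.θ ^ p.m)⁻¹ ≤ q.G / q.τ * 1 :=
    mul_le_mul_of_nonneg_left h3 (by positivity)
  linarith

end Sc

theorem old_tendsto (s : St b) {r : ℝ} (hr : 0 < r) :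
    ∃ ρ > 0, ∀ K' : X →L[ℂ] X, ‖K' - s.K‖ < ρ → s.old K' < r := by
  have hcont : Continuous s.old := by
    unfold St.old
    refine continuous_finsetSum _ fun x _ => ?_
    refine Continuous.mul ?_ continuous_const
    refine Continuous.norm ?_
    refine Continuous.sub ?_ continuous_const
    refine (b.f 0).continuous.comp ?_
    have h1 : Continuous fun K' : X →L[ℂ] X => aeval K' (s.E x.1) := by
      simp_rw [aeval_eq_sum_range]
      refine continuous_finsetSum _ fun i _ => ?_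
      exact (continuous_pow (M := X →L[ℂ] X) i).const_smul ((s.E x.1).coeff i)
    exact h1.clm_apply continuous_const
  have h0 : s.old s.K = 0 := by
    unfold St.old
    refine Finset.sum_eq_zero fun x _ => ?_
    unfold St.bet
    rw [sub_self, norm_zero, zero_mul]
  have h1 := (Metric.continuous_iff.1 hcont) s.K r hr
  obtain ⟨ρ, hρ, h2⟩ := h1
  refine ⟨ρ, hρ, fun K' hK' => ?_⟩
  have h3 := h2 K' (by rwa [dist_eq_norm])
  rw [h0, Real.dist_eq, sub_zero] at h3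
  exact (le_abs_self _).trans_lt h3

/-- **The step lemma.** -/
theorem St.step (s : St b) (P : ℂ[X]) (hP0 : P.eval 0 ≠ 0) (hdeg : P.natDegree < s.D) (δ r : ℝ)
    (hδ : 0 < δ) (hr : 0 < r) (M : ℕ) :
    ∃ s' : St b, M ≤ s'.D ∧ s.D ≤ s'.D ∧ (∀ i < s.D, s'.E i = s.E i) ∧ ‖s'.K - s.K‖ ≤ r ∧
      (∀ u v, ‖s'.B u v - s.B u v‖ ≤ r * (‖u‖ * ‖v‖)) ∧
      ∃ n : ℕ, ‖((1 + s'.K) ^ n) (b.e 0) - aeval s'.K P (b.e 0)‖ < δ := by
  obtain ⟨c, hc, N, hN⟩ := roots_near_zero P hP0 s.D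
  set θ : ℝ := (1 + c) ^ s.D * 4 ^ (s.D + 4) with hθdef
  have hθ1 : 1 ≤ θ := by
    rw [hθdef]
    exact one_le_mul_of_one_le_of_one_le (one_le_pow₀ (by linarith)) (one_le_pow₀ (by norm_num))
  have hθ0 : 0 < θ := lt_of_lt_of_le one_pos hθ1
  set τ : ℝ := δ / 2 / (Real.exp (1 + c) * (Real.exp ((1 + c) * θ) + 1)) with hτdef
  have hτ : 0 < τ := by rw [hτdef]; positivity
  obtain ⟨ρ, hρ, hold⟩ := old_tendsto s (half_pos hr)
  have hlim : Tendsto (fun m : ℕ => (1 / 2 : ℝ) ^ m) atTop (𝓝 0) :=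
    tendsto_pow_atTop_nhds_zero_of_lt_one (by norm_num) (by norm_num)
  have hl1 : ∀ᶠ m : ℕ in atTop, A1 s c τ θ * (1 / 2) ^ m < min r ρ := by
    have := hlim.const_mul (A1 s c τ θ)
    rw [mul_zero] at this
    exact this.eventually_lt_const (lt_min hr hρ)
  have hl2 : ∀ᶠ m : ℕ in atTop, A2 s c τ θ * 16 ^ (s.D + 1) * (1 / 2) ^ m < r / 2 := by
    have := hlim.const_mul (A2 s c τ θ * 16 ^ (s.D + 1))
    rw [mul_zero] at this
    exact this.eventually_lt_const (half_pos hr)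
  have hl3 : ∀ᶠ m : ℕ in atTop, A3 s τ * (1 / 2) ^ m *
      Real.exp ((1 + c) ^ (s.D + 1) * (2 * 4 ^ s.D * θ)) < 1 := by
    have := (hlim.const_mul (A3 s τ)).mul_const
      (Real.exp ((1 + c) ^ (s.D + 1) * (2 * 4 ^ s.D * θ)))
    rw [mul_zero, zero_mul] at this
    exact this.eventually_lt_const one_pos
  have h4 : Tendsto (fun m : ℕ => ((4 : ℝ)) ^ m) atTop atTop :=
    tendsto_pow_atTop_atTop_of_one_lt (by norm_num)
  have hl4 : ∀ᶠ m : ℕ in atTop, (N : ℝ) ≤ 4 ^ m := h4.eventually_ge_atTop _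
  have hl5 : ∀ᶠ m : ℕ in atTop, c ≤ 4 ^ m := h4.eventually_ge_atTop _
  have hl6 : ∀ᶠ m : ℕ in atTop, M ≤ m := eventually_ge_atTop M
  obtain ⟨m, g1, g2, g3, g4, g5, g6⟩ :=
    (hl1.and (hl2.and (hl3.and (hl4.and (hl5.and hl6))))).exists
  have g4' : N ≤ 4 ^ m := by exact_mod_cast g4
  obtain ⟨x, hx1, hx2, hx3⟩ := hN (4 ^ m) g4'
  have hηpos : 0 < τ / ((4 ^ m : ℕ) : ℝ) ^ s.D := by positivity
  have hεpos : 0 < (1 + c) * θ / ((4 ^ m : ℕ) : ℝ) := by positivity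
  let p : Par :=
    { x := x
      η := ((τ / ((4 ^ m : ℕ) : ℝ) ^ s.D : ℝ) : ℂ)
      ε := (((1 + c) * θ / ((4 ^ m : ℕ) : ℝ) : ℝ) : ℂ)
      m := m
      hη := by exact_mod_cast hηpos.ne'
      hε := by exact_mod_cast hεpos.ne' }
  let q : Sc s p :=
    { n := 4 ^ m
      c := c
      τ := τ
      θ := θ
      hn := Nat.one_le_pow _ _ (by norm_num)
      hc := hc
      hτ := hτ
      hθ := hθ1
      hx := hx1
      hxn := by push_cast; exact g5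
      hη := by
        change ‖((τ / ((4 ^ m : ℕ) : ℝ) ^ s.D : ℝ) : ℂ)‖ = _
        rw [Complex.norm_real, Real.norm_of_nonneg hηpos.le]
      hε := by
        change ‖(((1 + c) * θ / ((4 ^ m : ℕ) : ℝ) : ℝ) : ℂ)‖ = _
        rw [Complex.norm_real, Real.norm_of_nonneg hεpos.le] }
  have hK : ‖s.K1 p - s.K‖ ≤ A1 s c τ θ * (1 / 2) ^ m :=
    q.bound1 rfl (by
      change 4 ^ (s.D + 4) ≤ (1 + c) ^ s.D * 4 ^ (s.D + 4)
      exact le_mul_of_one_le_left (by positivity) (one_le_pow₀ (by linarith)))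
  refine ⟨s.next p, ?_, ?_, ?_, ?_, ?_, 4 ^ m, ?_⟩
  · change M ≤ s.D + m + 1
    omega
  · change s.D ≤ s.D + m + 1
    omega
  · intro i hi
    exact s.E1_of_lt p hi
  · exact hK.trans (g1.le.trans (min_le_left _ _))
  · intro u v
    refine (q.bound2 rfl rfl u v).trans ?_
    refine mul_le_mul_of_nonneg_right ?_ (by positivity)
    have h7 : s.old (s.K1 p) < r / 2 := hold _ (hK.trans_lt (g1.trans_le (min_le_right _ _)))
    have h8 : A2 s q.c q.τ q.θ * 16 ^ (s.D + 1) * (1 / 2) ^ p.m < r / 2 := g2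
    linarith
  · have hdvd : NN p s.D ∣ (1 + Polynomial.X) ^ q.n - P := NN_dvd p s.D (4 ^ m) P hx2 hx3
    refine (q.bound3 rfl P hdeg hdvd).trans_lt ?_
    change τ * Real.exp (1 + c) * (Real.exp ((1 + c) * θ) + A3 s τ * (1 / 2) ^ m *
        Real.exp ((1 + c) ^ (s.D + 1) * (2 * 4 ^ s.D * θ))) < δ
    have h9 : τ * Real.exp (1 + c) * (Real.exp ((1 + c) * θ) + 1) = δ / 2 := by
      rw [hτdef]
      field_simp
    have h10 : τ * Real.exp (1 + c) * (Real.exp ((1 + c) * θ) + A3 s τ * (1 / 2) ^ m *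
        Real.exp ((1 + c) ^ (s.D + 1) * (2 * 4 ^ s.D * θ))) ≤
        τ * Real.exp (1 + c) * (Real.exp ((1 + c) * θ) + 1) :=
      mul_le_mul_of_nonneg_left (add_le_add le_rfl g3.le) (by positivity)
    linarith

end Pool.Agent.MP_7da968
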