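import Mathlib
import Pool.Agent.Lib.MP_7da968_an.Step

set_option autoImplicit false

open Filter Topology Polynomial Finset

namespace Pool.Agent.MP_7da968

variable {X : Type*} [NormedAddCommGroup X] [NormedSpace ℂ X] {b : Bio X}

/-- The first stage. -/
noncomputable def stage0 (b : Bio X) : St b where
  D := 1
  K := 0
  E := fun _ => 1
  hD := le_rfl
  hKf := fun _ => rfl
  hKr := fun z => by simp
  hE := fun i hi => by
    obtain rfl : i = 0 := by omega
    rw [map_one]; rfl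
  hdeg := fun i _ => by simp
  hnil := by simp
  htop0 := fun j hj => by omega
  htop := by
    change b.f 0 (b.e 0) ≠ 0
    rw [b.bi, if_pos rfl]
    exact one_ne_zero

theorem exists_comb (b : Bio X) (y : X) {δ : ℝ} (hδ : 0 < δ) :
    ∃ (N : ℕ) (c : ℕ → ℂ), ‖∑ i ∈ range N, c i • b.e i - y‖ < δ := by
  obtain ⟨z, hz, hzy⟩ := Metric.dense_iff.1 b.dense y δ hδ
  rw [SetLike.mem_coe, Finsupp.mem_span_range_iff_exists_finsupp] at hzy
  obtain ⟨c, hc⟩ := hzy
  refine ⟨c.support.sup id + 1, c, ?_⟩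
  have h1 : ∑ i ∈ range (c.support.sup id + 1), c i • b.e i = z := by
    rw [← hc, Finsupp.sum]
    symm
    refine Finset.sum_subset ?_ ?_
    · intro i hi
      have : i ≤ c.support.sup id := Finset.le_sup (f := id) hi
      exact Finset.mem_range.2 (by omega)
    · intro i _ hi
      rw [Finsupp.notMem_support_iff.1 hi, zero_smul]
  rw [h1, ← dist_eq_norm]
  exact Metric.mem_ball.1 hz

theorem St.step2 (s : St b) (y : X) (δ r : ℝ) (hδ : 0 < δ) (hr : 0 < r) :
    ∃ s' : St b, ‖s'.K - s.K‖ ≤ r ∧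
      (∀ u v, ‖s'.B u v - s.B u v‖ ≤ r * (‖u‖ * ‖v‖)) ∧
      ∃ n : ℕ, ‖((1 + s'.K) ^ n) (b.e 0) - y‖ < δ := by
  have hδ3 : 0 < δ / 3 := by positivity
  obtain ⟨N, c, hNc⟩ := exists_comb b y hδ3
  obtain ⟨s1, hM, -, -, hK1, hB1, -⟩ := s.step 1 (by simp)
    (by rw [natDegree_one]; have := s.hD; omega) 1 (r / 2) one_pos
    (half_pos hr) N
  set P0 : ℂ[X] := ∑ i ∈ range N, C (c i) * s1.E i with hP0
  obtain ⟨t, ht1, ht2⟩ : ∃ t : ℂ, P0.eval 0 + t ≠ 0 ∧ ‖t‖ < δ / 3 := by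
    by_cases h : P0.eval 0 = 0
    · refine ⟨((δ / 6 : ℝ) : ℂ), ?_, ?_⟩
      · rw [h, zero_add]
        have : δ / 6 ≠ 0 := by positivity
        exact_mod_cast this
      · rw [Complex.norm_real, Real.norm_of_nonneg (by positivity)]
        linarith
    · exact ⟨0, by simpa using h, by simpa using hδ3⟩
  have hD1 := s1.hD
  have hdeg : (P0 + C t).natDegree < s1.D := by
    refine lt_of_le_of_lt (natDegree_add_le _ _) ?_
    rw [natDegree_C, max_lt_iff]
    refine ⟨?_, by omega⟩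
    have hle : P0.natDegree ≤ s1.D - 1 := by
      refine Polynomial.natDegree_sum_le_of_forall_le _ _ fun i hi => ?_
      have := s1.hdeg i ((Finset.mem_range.1 hi).trans_le hM)
      exact (natDegree_C_mul_le _ _).trans (by omega)
    omega
  obtain ⟨s2, -, hD2, hE2, hK2, hB2, n, hn⟩ := s1.step (P0 + C t) (by simpa using ht1) hdeg (δ / 3)
    (r / 2) hδ3 (half_pos hr) 0
  refine ⟨s2, ?_, ?_, n, ?_⟩
  · calc ‖s2.K - s.K‖ = ‖(s2.K - s1.K) + (s1.K - s.K)‖ := by rw [sub_add_sub_cancel]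
      _ ≤ r / 2 + r / 2 := (norm_add_le _ _).trans (add_le_add hK2 hK1)
      _ = r := by ring
  · intro u v
    calc ‖s2.B u v - s.B u v‖ = ‖(s2.B u v - s1.B u v) + (s1.B u v - s.B u v)‖ := by
          rw [sub_add_sub_cancel]
      _ ≤ r / 2 * (‖u‖ * ‖v‖) + r / 2 * (‖u‖ * ‖v‖) :=
          (norm_add_le _ _).trans (add_le_add (hB2 u v) (hB1 u v))
      _ = r * (‖u‖ * ‖v‖) := by ring
  · have hval : aeval s2.K (P0 + C t) (b.e 0) = ∑ i ∈ range N, c i • b.e i + t • b.e 0 := by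
      rw [map_add, aeval_C, Algebra.algebraMap_eq_smul_one, hP0, map_sum]
      have h1 : ∀ i ∈ range N, (aeval s2.K (C (c i) * s1.E i)) (b.e 0) = c i • b.e i := by
        intro i hi
        have hi' : i < s1.D := (Finset.mem_range.1 hi).trans_le hM
        have hi2 : i < s2.D := hi'.trans_le hD2
        rw [aeval_mul_apply, aeval_C, Algebra.algebraMap_eq_smul_one, ← hE2 i hi', s2.hE i hi2]
        rfl
      rw [add_apply, _root_.sum_apply, Finset.sum_congr rfl h1]
      rfl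
    rw [hval] at hn
    have h2 : ‖t • b.e 0‖ < δ / 3 := by
      rw [norm_smul]
      exact lt_of_le_of_lt (mul_le_of_le_one_right (norm_nonneg _) (b.ne 0)) ht2
    calc ‖((1 + s2.K) ^ n) (b.e 0) - y‖ =
          ‖(((1 + s2.K) ^ n) (b.e 0) - (∑ i ∈ range N, c i • b.e i + t • b.e 0)) + t • b.e 0 +
            (∑ i ∈ range N, c i • b.e i - y)‖ := by congr 1; abel
      _ ≤ ‖((1 + s2.K) ^ n) (b.e 0) - (∑ i ∈ range N, c i • b.e i + t • b.e 0)‖ + ‖t • b.e 0‖ +
            ‖∑ i ∈ range N, c i • b.e i - y‖ := norm_add₃_le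
      _ < δ := by linarith

/-- The sequence of stages. -/
theorem exists_seq (b : Bio X) (y : ℕ → X) (δ : ℕ → ℝ) (hδ : ∀ k, 0 < δ k) :
    ∃ (s : ℕ → St b) (r : ℕ → ℝ), (∀ k, 0 < r k) ∧ r 0 = 1 ∧ (∀ k, r (k + 1) ≤ r k / 2) ∧
      (∀ k, ‖(s (k + 1)).K - (s k).K‖ ≤ r k / 2) ∧
      (∀ k u v, ‖(s (k + 1)).B u v - (s k).B u v‖ ≤ r k / 2 * (‖u‖ * ‖v‖)) ∧
      (∀ k, ∃ n : ℕ, ∀ K' : X →L[ℂ] X, ‖K' - (s (k + 1)).K‖ ≤ r (k + 1) →
        ‖((1 + K') ^ n) (b.e 0) - y k‖ < δ k) := by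
  have key : ∀ (a : St b × ℝ) (k : ℕ), ∃ a' : St b × ℝ, 0 < a.2 →
      (0 < a'.2 ∧ a'.2 ≤ a.2 / 2 ∧ ‖a'.1.K - a.1.K‖ ≤ a.2 / 2 ∧
        (∀ u v, ‖a'.1.B u v - a.1.B u v‖ ≤ a.2 / 2 * (‖u‖ * ‖v‖)) ∧
        ∃ n : ℕ, ∀ K' : X →L[ℂ] X, ‖K' - a'.1.K‖ ≤ a'.2 → ‖((1 + K') ^ n) (b.e 0) - y k‖ < δ k) := by
    intro a k
    by_cases ha : 0 < a.2
    · obtain ⟨s', h1, h2, n, h3⟩ := a.1.step2 (y k) (δ k) (a.2 / 2) (hδ k) (half_pos ha)
      have hcont : Continuous fun K' : X →L[ℂ] X => ‖((1 + K') ^ n) (b.e 0) - y k‖ := by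
        refine Continuous.norm ?_
        refine Continuous.sub ?_ continuous_const
        have h4 : Continuous fun K' : X →L[ℂ] X => (1 + K') ^ n :=
          (continuous_const.add continuous_id).pow n
        exact h4.clm_apply continuous_const
      have hopen : IsOpen {K' : X →L[ℂ] X | ‖((1 + K') ^ n) (b.e 0) - y k‖ < δ k} :=
        isOpen_lt hcont continuous_const
      obtain ⟨ρ, hρ, hball⟩ := Metric.isOpen_iff.1 hopen s'.K h3
      refine ⟨(s', min (a.2 / 2) (ρ / 2)), fun _ => ⟨?_, min_le_left _ _, h1, h2, n, ?_⟩⟩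
      · exact lt_min (half_pos ha) (half_pos hρ)
      · intro K' hK'
        refine hball ?_
        rw [Metric.mem_ball, dist_eq_norm]
        have h5 : min (a.2 / 2) (ρ / 2) ≤ ρ / 2 := min_le_right _ _
        change ‖K' - s'.K‖ ≤ min (a.2 / 2) (ρ / 2) at hK'
        linarith
    · exact ⟨a, fun h => absurd h ha⟩
  choose F hF using key
  let sq : ℕ → St b × ℝ := fun k => Nat.rec (stage0 b, 1) (fun k a => F a k) k
  have hsq : ∀ k, sq (k + 1) = F (sq k) k := fun k => rfl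
  have hpos : ∀ k, 0 < (sq k).2 := by
    intro k
    induction k with
    | zero => exact one_pos
    | succ k ih =>
      rw [hsq]
      exact (hF (sq k) k ih).1
  refine ⟨fun k => (sq k).1, fun k => (sq k).2, hpos, rfl, ?_, ?_, ?_, ?_⟩
  · intro k
    exact (hF (sq k) k (hpos k)).2.1
  · intro k
    exact (hF (sq k) k (hpos k)).2.2.1
  · intro k
    exact (hF (sq k) k (hpos k)).2.2.2.1
  · intro k
    exact (hF (sq k) k (hpos k)).2.2.2.2

/-- Telescoping bound in a seminormed group. -/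
theorem tele {Y : Type*} [SeminormedAddCommGroup Y] (a : ℕ → Y) (r : ℕ → ℝ) (C : ℝ) (hC : 0 ≤ C)
    (hr : ∀ k, r (k + 1) ≤ r k / 2) (ha : ∀ k, ‖a (k + 1) - a k‖ ≤ r k / 2 * C) (k j : ℕ) :
    ‖a (k + j) - a k‖ ≤ (r k - r (k + j)) * C := by
  induction j with
  | zero => simp
  | succ j ih =>
    have h1 := ha (k + j)
    have h2 := hr (k + j)
    have h3 : ‖a (k + (j + 1)) - a k‖ ≤ ‖a (k + j + 1) - a (k + j)‖ + ‖a (k + j) - a k‖ := by
      have : a (k + (j + 1)) - a k = (a (k + j + 1) - a (k + j)) + (a (k + j) - a k) := by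
        rw [sub_add_sub_cancel]; rfl
      rw [this]
      exact norm_add_le _ _
    have h4 : r (k + (j + 1)) = r (k + j + 1) := rfl
    rw [h4]
    have h5 : r (k + j) / 2 * C ≤ (r (k + j) - r (k + j + 1)) * C :=
      mul_le_mul_of_nonneg_right (by linarith) hC
    linarith

theorem r_tendsto (r : ℕ → ℝ) (hpos : ∀ k, 0 < r k) (hr : ∀ k, r (k + 1) ≤ r k / 2) :
    Tendsto r atTop (𝓝 0) := by
  have h1 : ∀ k, r k ≤ r 0 * (1 / 2) ^ k := by
    intro k
    induction k with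
    | zero => simp
    | succ k ih =>
      have := hr k
      rw [pow_succ]
      linarith
  have h2 : Tendsto (fun k : ℕ => r 0 * (1 / 2 : ℝ) ^ k) atTop (𝓝 0) := by
    have := (tendsto_pow_atTop_nhds_zero_of_lt_one (r := (1 / 2 : ℝ)) (by norm_num)
      (by norm_num)).const_mul (r 0)
    rwa [mul_zero] at this
  exact squeeze_zero (fun k => (hpos k).le) h1 h2

theorem exists_lim {Y : Type*} [NormedAddCommGroup Y] [CompleteSpace Y] (a : ℕ → Y) (r : ℕ → ℝ)
    (C : ℝ) (hC : 0 ≤ C) (hpos : ∀ k, 0 < r k)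
    (hr : ∀ k, r (k + 1) ≤ r k / 2) (ha : ∀ k, ‖a (k + 1) - a k‖ ≤ r k / 2 * C) :
    ∃ l : Y, Tendsto a atTop (𝓝 l) ∧ ∀ k, ‖l - a k‖ ≤ r k * C := by
  have h1 : CauchySeq a := by
    have h2 : Tendsto (fun k => r k * C) atTop (𝓝 0) := by
      have := (r_tendsto r hpos hr).mul_const C
      rwa [zero_mul] at this
    refine cauchySeq_of_le_tendsto_0' (fun k => r k * C) (fun n m hnm => ?_) h2
    obtain ⟨j, rfl⟩ := Nat.exists_eq_add_of_le hnm
    rw [dist_comm, dist_eq_norm]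
    refine (tele a r C hC hr ha n j).trans ?_
    have := hpos (n + j)
    exact mul_le_mul_of_nonneg_right (by linarith) hC
  obtain ⟨l, hl⟩ := cauchySeq_tendsto_of_complete h1
  refine ⟨l, hl, fun k => ?_⟩
  have h3 : Tendsto (fun j => ‖a (k + j) - a k‖) atTop (𝓝 ‖l - a k‖) := by
    have h4 : Tendsto (fun j => a (k + j)) atTop (𝓝 l) := by
      have := (tendsto_add_atTop_iff_nat k).2 hl
      simpa [add_comm] using this
    exact (h4.sub_const _).norm
  refine le_of_tendsto h3 (Eventually.of_forall fun j => ?_)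
  refine (tele a r C hC hr ha k j).trans ?_
  have := hpos (k + j)
  exact mul_le_mul_of_nonneg_right (by linarith) hC

/-- **The operator and its form.** -/
theorem exists_op [CompleteSpace X] [TopologicalSpace.SeparableSpace X] (b : Bio X) :
    ∃ (K : X →L[ℂ] X) (B : X → X → ℂ) (M : ℝ), 0 ≤ M ∧
      Dense (Set.range fun n : ℕ => ((1 + K) ^ n) (b.e 0)) ∧
      (∀ u v, ‖B u v‖ ≤ M * (‖u‖ * ‖v‖)) ∧
      (∀ u u' v, B (u + u') v = B u v + B u' v) ∧ (∀ (c : ℂ) u v, B (c • u) v = c * B u v) ∧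
      (∀ u v, B u v = B v u) ∧ (∀ u v, B (K u) v = B u (K v)) ∧ B (b.e 0) (b.e 0) = 1 := by
  have : Nonempty X := ⟨0⟩
  obtain ⟨s, r, hpos, hr0, hr, hK, hB, hhit⟩ := exists_seq b
    (fun k => TopologicalSpace.denseSeq X k.unpair.1) (fun k => 1 / ((k.unpair.2 : ℝ) + 1))
    (fun k => by positivity)
  obtain ⟨K, hKlim, hKb⟩ := exists_lim (fun k => (s k).K) r 1 zero_le_one hpos hr
    (fun k => by simpa using hK k)
  have hBl : ∀ u v, ∃ l : ℂ, Tendsto (fun k => (s k).B u v) atTop (𝓝 l) ∧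
      ∀ k, ‖l - (s k).B u v‖ ≤ r k * (‖u‖ * ‖v‖) := fun u v =>
    exists_lim (fun k => (s k).B u v) r (‖u‖ * ‖v‖) (by positivity) hpos hr (fun k => hB k u v)
  choose B hBlim hBb using hBl
  have hM : ∃ M : ℝ, 0 ≤ M ∧ ∀ u v, ‖(s 0).B u v‖ ≤ M * (‖u‖ * ‖v‖) := by
    refine ⟨∑ x ∈ range (s 0).D ×ˢ range (s 0).D, ‖(s 0).bet x.1 x.2‖ * 2 ^ (x.1 + x.2),
      Finset.sum_nonneg fun x _ => by positivity, fun u v => ?_⟩
    rw [St.B_prod, Finset.sum_mul]
    refine (norm_sum_le _ _).trans (Finset.sum_le_sum fun x _ => ?_)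
    rw [norm_mul, mul_assoc]
    exact mul_le_mul_of_nonneg_left (norm_T_le b _ _ u v) (norm_nonneg _)
  obtain ⟨M, hM0, hM⟩ := hM
  have hBk : ∀ k u v, ‖(s k).B u v‖ ≤ (M + 2) * (‖u‖ * ‖v‖) := by
    intro k u v
    have h1 := hBb u v k
    have h2 := hBb u v 0
    have h3 := hM u v
    have h4 : r k ≤ 1 := by
      induction k with
      | zero => exact hr0.le
      | succ k ih =>
        have := hr k
        have := ih (hBb u v k)
        have := hpos k
        linarith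
    have h5 : ‖(s k).B u v‖ ≤ ‖B u v - (s k).B u v‖ + ‖B u v - (s 0).B u v‖ + ‖(s 0).B u v‖ := by
      have : (s k).B u v = -(B u v - (s k).B u v) + (B u v - (s 0).B u v) + (s 0).B u v := by ring
      calc ‖(s k).B u v‖ = ‖-(B u v - (s k).B u v) + (B u v - (s 0).B u v) + (s 0).B u v‖ :=
            congrArg norm this
        _ ≤ ‖-(B u v - (s k).B u v)‖ + ‖B u v - (s 0).B u v‖ + ‖(s 0).B u v‖ := norm_add₃_le
        _ = _ := by rw [norm_neg]
    have h6 : 0 ≤ ‖u‖ * ‖v‖ := by positivity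
    have h7 : r k * (‖u‖ * ‖v‖) ≤ 1 * (‖u‖ * ‖v‖) := mul_le_mul_of_nonneg_right h4 h6
    rw [hr0] at h2
    linarith
  refine ⟨K, B, M + 2, by linarith, ?_, ?_, ?_, ?_, ?_, ?_, ?_⟩
  · rw [Metric.dense_iff]
    intro y ε hε
    obtain ⟨z, hz, ⟨i, hi⟩⟩ := Metric.dense_iff.1 (TopologicalSpace.denseRange_denseSeq X) y (ε / 2)
      (half_pos hε)
    obtain ⟨j, hj⟩ := exists_nat_one_div_lt (half_pos hε)
    obtain ⟨n, hn⟩ := hhit (Nat.pair i j)
    have h1 := hn K (by simpa using hKb (Nat.pair i j + 1))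
    rw [Nat.unpair_pair] at h1
    refine ⟨_, ?_, ⟨n, rfl⟩⟩
    rw [Metric.mem_ball, dist_eq_norm] at hz ⊢
    have h2 : ‖((1 + K) ^ n) (b.e 0) - y‖ ≤ ‖((1 + K) ^ n) (b.e 0) - z‖ + ‖z - y‖ := by
      rw [← sub_add_sub_cancel _ z]
      exact norm_add_le _ _
    simp only at h1
    rw [hi] at h1
    change ‖((1 + K) ^ n) (b.e 0) - y‖ < ε
    linarith
  · intro u v
    exact le_of_tendsto (hBlim u v).norm (Eventually.of_forall fun k => hBk k u v)
  · intro u u' v
    refine tendsto_nhds_unique (hBlim (u + u') v) ?_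
    refine ((hBlim u v).add (hBlim u' v)).congr fun k => ?_
    rw [map_add]; rfl
  · intro c u v
    refine tendsto_nhds_unique (hBlim (c • u) v) ?_
    refine ((hBlim u v).const_mul c).congr fun k => ?_
    rw [map_smul]; rfl
  · intro u v
    refine tendsto_nhds_unique (hBlim u v) ?_
    exact (hBlim v u).congr fun k => (s k).B_symm v u
  · intro u v
    have hlin1 : ∀ k a a' c, (s k).B (a - a') c = (s k).B a c - (s k).B a' c := by
      intro k a a' c
      rw [map_sub]; rfl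
    have hd1 : Tendsto (fun k => (s k).B (K u) v - (s k).B ((s k).K u) v) atTop (𝓝 0) := by
      have h1 : ∀ k, ‖(s k).B (K u) v - (s k).B ((s k).K u) v‖ ≤ r k * ((M + 2) * (‖u‖ * ‖v‖)) := by
        intro k
        rw [← hlin1]
        refine (hBk k _ _).trans ?_
        have h2 : ‖K u - (s k).K u‖ ≤ r k * ‖u‖ := by
          have h3 := (K - (s k).K).le_opNorm u
          have h4 := hKb k
          rw [mul_one] at h4
          exact h3.trans (mul_le_mul_of_nonneg_right h4 (norm_nonneg _))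
        have h5 : ‖K u - (s k).K u‖ * ‖v‖ ≤ r k * ‖u‖ * ‖v‖ :=
          mul_le_mul_of_nonneg_right h2 (norm_nonneg _)
        have h6 : 0 ≤ M + 2 := by linarith
        calc (M + 2) * (‖K u - (s k).K u‖ * ‖v‖) ≤ (M + 2) * (r k * ‖u‖ * ‖v‖) :=
              mul_le_mul_of_nonneg_left h5 h6
          _ = _ := by ring
      refine squeeze_zero_norm h1 ?_
      have := (r_tendsto r hpos hr).mul_const ((M + 2) * (‖u‖ * ‖v‖))
      rwa [zero_mul] at this
    have hd2 : Tendsto (fun k => (s k).B (K v) u - (s k).B ((s k).K v) u) atTop (𝓝 0) := by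
      have h1 : ∀ k, ‖(s k).B (K v) u - (s k).B ((s k).K v) u‖ ≤ r k * ((M + 2) * (‖v‖ * ‖u‖)) := by
        intro k
        rw [← hlin1]
        refine (hBk k _ _).trans ?_
        have h2 : ‖K v - (s k).K v‖ ≤ r k * ‖v‖ := by
          have h3 := (K - (s k).K).le_opNorm v
          have h4 := hKb k
          rw [mul_one] at h4
          exact h3.trans (mul_le_mul_of_nonneg_right h4 (norm_nonneg _))
        have h5 : ‖K v - (s k).K v‖ * ‖u‖ ≤ r k * ‖v‖ * ‖u‖ :=
          mul_le_mul_of_nonneg_right h2 (norm_nonneg _)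
        have h6 : 0 ≤ M + 2 := by linarith
        calc (M + 2) * (‖K v - (s k).K v‖ * ‖u‖) ≤ (M + 2) * (r k * ‖v‖ * ‖u‖) :=
              mul_le_mul_of_nonneg_left h5 h6
          _ = _ := by ring
      refine squeeze_zero_norm h1 ?_
      have := (r_tendsto r hpos hr).mul_const ((M + 2) * (‖v‖ * ‖u‖))
      rwa [zero_mul] at this
    have h1 : Tendsto (fun k => (s k).B ((s k).K u) v) atTop (𝓝 (B (K u) v)) := by
      have := (hBlim (K u) v).sub hd1
      rw [sub_zero] at this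
      refine this.congr fun k => ?_
      ring
    have h2 : Tendsto (fun k => (s k).B ((s k).K v) u) atTop (𝓝 (B (K v) u)) := by
      have := (hBlim (K v) u).sub hd2
      rw [sub_zero] at this
      refine this.congr fun k => ?_
      ring
    have h3 : B (K u) v = B (K v) u := by
      refine tendsto_nhds_unique h1 (h2.congr fun k => ?_)
      rw [(s k).B_K v u, (s k).B_symm]
    have h4 : B (K v) u = B u (K v) := by
      refine tendsto_nhds_unique (hBlim (K v) u) ?_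
      exact (hBlim u (K v)).congr fun k => (s k).B_symm u (K v)
    rw [h3, h4]
  · refine tendsto_nhds_unique (hBlim (b.e 0) (b.e 0)) ?_
    exact tendsto_const_nhds.congr fun k => ((s k).B_e0).symm

end Pool.Agent.MP_7da968
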